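import Pool.Agent.T9h16.Rand2.Excl
import Pool.Agent.T9h16.Rand.Cover

/-!
The spread lemma of Alweiss, Lovász, Wu and Zhang for families of partial assignments.
-/

set_option autoImplicit false
set_option linter.unusedSectionVars false

namespace Pool.Agent.T9h16.Rand

open Finset
open scoped Classical
open Pool.Agent.T9h34 (ind ind_of ind_not ind_nonneg ind_le_one Ez En zset)

/-- The iterated noise as one average. -/
theorem En_eq {X : Type} [Fintype X] [DecidableEq X] (D : ℕ) (J : ℕ) (F : Finset X → ℝ) :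
    En D J F = (∑ φ : Fin J → X → Fin D, F (univ.filter fun x => ∃ j, (φ j x : ℕ) = 0)) /
      Fintype.card (Fin J → X → Fin D) := by
  induction J generalizing F with
  | zero =>
    have h1 : ∀ φ : Fin 0 → X → Fin D,
        F (univ.filter fun x => ∃ j, (φ j x : ℕ) = 0) = F ∅ := by
      intro φ
      congr 1
      rw [filter_eq_empty_iff]
      rintro x - ⟨j, -⟩
      exact j.elim0
    rw [sum_congr rfl fun φ _ => h1 φ, sum_const, card_univ]
    simp [En]
  | succ J ih =>
    have h1 : (∑ φ : Fin (J + 1) → X → Fin D, F (univ.filter fun x => ∃ j, (φ j x : ℕ) = 0)) =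
        ∑ ψ : X → Fin D, ∑ φ : Fin J → X → Fin D,
          F (zset D ψ ∪ univ.filter fun x => ∃ j, (φ j x : ℕ) = 0) := by
      rw [← Fintype.sum_prod_type' (f := fun (ψ : X → Fin D) (φ : Fin J → X → Fin D) =>
        F (zset D ψ ∪ univ.filter fun x => ∃ j, (φ j x : ℕ) = 0))]
      symm
      apply Fintype.sum_equiv (Fin.consEquiv (fun _ : Fin (J + 1) => X → Fin D))
      rintro ⟨ψ, φ⟩
      congr 1
      ext x
      simp only [mem_union, mem_filter, mem_univ, true_and, zset]
      constructor
      · rintro (h | ⟨j, hj⟩)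
        · exact ⟨0, h⟩
        · exact ⟨j.succ, hj⟩
      · rintro ⟨j, hj⟩
        refine Fin.cases (fun h => Or.inl h) (fun j h => Or.inr ⟨j, h⟩) j hj
    have h2 : (Fintype.card (Fin (J + 1) → X → Fin D) : ℝ) =
        Fintype.card (Fin J → X → Fin D) * (D : ℝ) ^ Fintype.card X := by
      have h3 : Fintype.card (X → Fin D) = D ^ Fintype.card X := by
        rw [Fintype.card_fun, Fintype.card_fin]
      have h4 : ∀ j : ℕ, Fintype.card (Fin j → X → Fin D) = (D ^ Fintype.card X) ^ j := by
        intro j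
        rw [Fintype.card_fun, h3, Fintype.card_fin]
      rw [h4, h4, pow_succ]
      push_cast
      ring
    rw [h1, h2]
    change Ez D (fun z => En D J (fun U => F (z ∪ U))) = _
    unfold Ez
    rw [← div_div]
    congr 1
    rw [sum_div]
    apply sum_congr rfl
    intro ψ _
    exact ih _

theorem card_one_coord {X A : Type} [Fintype X] [Fintype A] (x : X) (a : A) :
    (univ.filter fun y : X → A => y x = a).card * Fintype.card A = Fintype.card (X → A) := by
  have h := card_fixed ({x} : Finset X) (fun _ => a)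
  rw [card_singleton, pow_one] at h
  rw [Fintype.card_fun, ← h]
  congr 2
  ext y
  simp

theorem card_filter_dec {α : Type} (i₁ i₂ : Fintype α) (p : α → Prop) (d₁ d₂ : DecidablePred p) :
    (@Finset.filter α p d₁ (@univ α i₁)).card = (@Finset.filter α p d₂ (@univ α i₂)).card := by
  have hi : i₁ = i₂ := Subsingleton.elim _ _
  have hd : d₁ = d₂ := Subsingleton.elim _ _
  rw [hi, hd]

theorem card_some_zero {J D : ℕ} (hD0 : 0 < D) (b : Bool) :
    (univ.filter fun y : Fin J × Bool → Fin D =>
      b ∈ (univ.filter fun b : Bool => ∃ j, (y (j, b) : ℕ) = 0)).card * D ≤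
      J * Fintype.card (Fin J × Bool → Fin D) := by
  have hsub : (univ.filter fun y : Fin J × Bool → Fin D =>
      b ∈ (univ.filter fun b : Bool => ∃ j, (y (j, b) : ℕ) = 0)) ⊆
      (univ : Finset (Fin J)).biUnion fun j =>
        univ.filter fun y : Fin J × Bool → Fin D => y (j, b) = ⟨0, hD0⟩ := by
    intro y hy
    simp only [mem_filter, mem_univ, true_and] at hy
    obtain ⟨j, hj⟩ := hy
    rw [mem_biUnion]
    refine ⟨j, mem_univ _, ?_⟩
    rw [mem_filter]
    exact ⟨mem_univ _, Fin.ext hj⟩
  have h2 := (card_le_card hsub).trans card_biUnion_le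
  calc _ ≤ (∑ j : Fin J, (univ.filter fun y : Fin J × Bool → Fin D =>
          y (j, b) = ⟨0, hD0⟩).card) * D := Nat.mul_le_mul_right _ h2
    _ = ∑ _j : Fin J, Fintype.card (Fin J × Bool → Fin D) := by
        rw [sum_mul]
        apply sum_congr rfl
        intro j _
        have h3 := card_one_coord (A := Fin D) (j, b) ⟨0, hD0⟩
        rw [Fintype.card_fin] at h3
        exact (congrArg (· * D) (card_filter_dec _ _ _ _ _)).trans (h3.trans
          (congrArg (fun i => @Fintype.card (Fin J × Bool → Fin D) i) (Subsingleton.elim _ _)))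
    _ = _ := by rw [sum_const, card_univ, Fintype.card_fin, smul_eq_mul]

section
variable {V : Type} [Fintype V]

/-- The spread lemma for one label. -/
theorem alwz {α : Type} (𝒢 : Finset α) (hne : 𝒢.Nonempty) (Rf : α → Finset V)
    (σ : α → V → Bool) (u g J : ℕ) (hg : 1 ≤ g) (hJ : 1 ≤ J) (hu : ∀ S ∈ 𝒢, (Rf S).card ≤ u)
    (huJ : u < 2 ^ J) (B : ℝ) (hB : 0 < B) (hBg : 48 * (g * (J : ℝ) ^ 2) ≤ B)
    (hsp : ∀ S ∈ 𝒢, ∀ Z ⊆ Rf S, ((𝒢.filter fun S' => Z ⊆ Rf S').card : ℝ) * B ^ Z.card ≤
      2 * 𝒢.card) (i : Fin g) :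
    ((univ.filter fun ω : V → Fin g × Bool => ∀ S ∈ 𝒢, ∃ v ∈ Rf S, ω v ≠ (i, σ S v)).card : ℝ) * 3
      ≤ 2 * Fintype.card (V → Fin g × Bool) := by
  obtain ⟨D, hD⟩ : ∃ D, D = 2 * g * J := ⟨_, rfl⟩
  have hD0 : 0 < D := by rw [hD]; positivity
  have hgR : (1 : ℝ) ≤ g := by exact_mod_cast hg
  have hJR : (1 : ℝ) ≤ J := by exact_mod_cast hJ
  have hDR : (D : ℝ) = 2 * g * J := by rw [hD]; push_cast; ring
  -- the family of sets of literals
  set F : α → Finset (V × Bool) := fun S => (Rf S).image fun v => (v, σ S v) with hF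
  have hFmem : ∀ S l, l ∈ F S ↔ l.1 ∈ Rf S ∧ l.2 = σ S l.1 := by
    intro S l
    simp only [hF, mem_image]
    constructor
    · rintro ⟨v, hv, rfl⟩
      exact ⟨hv, rfl⟩
    · rintro ⟨h1, h2⟩
      exact ⟨l.1, h1, by rw [← h2]⟩
  have hdeg : ∀ K : Finset (V × Bool), K.Nonempty →
      ((𝒢.filter (fun S => K ⊆ F S)).card : ℝ) ≤ (2 * 𝒢.card) / B ^ K.card := by
    intro K _
    rcases (𝒢.filter (fun S => K ⊆ F S)).eq_empty_or_nonempty with h0 | ⟨S₀, hS₀⟩
    · rw [h0, card_empty, Nat.cast_zero]
      exact div_nonneg (by positivity) (by positivity)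
    · rw [mem_filter] at hS₀
      have h1 : (K.image Prod.fst).card = K.card := by
        apply card_image_of_injOn
        intro l hl l' hl' h
        have h2 := (hFmem S₀ l).1 (hS₀.2 hl)
        have h3 := (hFmem S₀ l').1 (hS₀.2 hl')
        exact Prod.ext h (by rw [h2.2, h3.2, h])
      have h2 : K.image Prod.fst ⊆ Rf S₀ := by
        intro v hv
        rw [mem_image] at hv
        obtain ⟨l, hl, rfl⟩ := hv
        exact ((hFmem S₀ l).1 (hS₀.2 hl)).1
      have h3 := hsp S₀ hS₀.1 _ h2
      rw [h1] at h3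
      rw [le_div_iff₀ (by positivity)]
      refine le_trans (mul_le_mul_of_nonneg_right ?_ (by positivity)) h3
      have h4 : (𝒢.filter (fun S => K ⊆ F S)).card ≤
          (𝒢.filter fun S' => K.image Prod.fst ⊆ Rf S').card := by
        apply card_le_card
        intro S hS
        rw [mem_filter] at hS ⊢
        refine ⟨hS.1, ?_⟩
        intro v hv
        rw [mem_image] at hv
        obtain ⟨l, hl, rfl⟩ := hv
        exact ((hFmem S l).1 (hS.2 hl)).1
      exact_mod_cast h4
  have hspread := Pool.Agent.T9h34.G.spread_rounds (D := D) hD0 (N := 2 * 𝒢.card) (R := B)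
    (by positivity) hB (by rw [hDR]; nlinarith) J u 𝒢 F huJ (fun S hS => by
      simp only [hF]
      exact card_image_le.trans (hu S hS)) hdeg
  have h𝒢 : (0 : ℝ) < 𝒢.card := by exact_mod_cast card_pos.2 hne
  have hEn : En D J (fun W => ind (¬ ∃ S ∈ 𝒢, F S ⊆ W)) ≤ 2 / 3 := by
    have h1 : (J : ℝ) * (8 * D / B * (2 * 𝒢.card)) ≤ 𝒢.card * (2 / 3) := by
      rw [hDR, mul_comm (8 * (2 * (g : ℝ) * J) / B), ← mul_div_assoc, ← mul_div_assoc,
        div_le_iff₀ hB]
      nlinarith
    have h2 := hspread.trans h1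
    exact le_of_mul_le_mul_left h2 h𝒢
  -- the comparison
  have : Nonempty (Fin D) := ⟨⟨0, hD0⟩⟩
  have : Nonempty (Fin g) := ⟨i⟩
  set c₁ : (Fin J × Bool → Fin D) → Finset Bool := fun y => univ.filter fun b =>
    ∃ j, (y (j, b) : ℕ) = 0 with hc₁
  set c₂ : Fin g × Bool → Finset Bool := fun y => if y.1 = i then {y.2} else ∅ with hc₂
  set f : (V → Finset Bool) → ℝ := fun a => ind (¬ ∃ S ∈ 𝒢, ∀ v ∈ Rf S, σ S v ∈ a v) with hf
  have hmono : ∀ (a : V → Finset Bool) (v : V) (t t' : Finset Bool), t ⊆ t' →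
      (∃ S ∈ 𝒢, ∀ v' ∈ Rf S, σ S v' ∈ Function.update a v t v') →
      (∃ S ∈ 𝒢, ∀ v' ∈ Rf S, σ S v' ∈ Function.update a v t' v') := by
    rintro a v t t' htt ⟨S, hS, h⟩
    refine ⟨S, hS, fun v' hv' => ?_⟩
    have h1 := h v' hv'
    by_cases hvv : v' = v
    · subst hvv
      rw [Function.update_self] at h1 ⊢
      exact htt h1
    · rw [Function.update_of_ne hvv] at h1 ⊢
      exact h1
  have hyb := hybrid (V := V) (c₁ := c₁) (c₂ := c₂) (by
      intro y
      simp only [hc₂]
      split_ifs
      · intro h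
        have := congrArg Finset.card h
        simp at this
      · intro h
        have := congrArg Finset.card h
        simp at this) (by
      intro b
      -- the number of choices with `b` on the left
      have h1 := card_some_zero (J := J) hD0 b
      have h2 : 1 ≤ (univ.filter fun y : Fin g × Bool => b ∈ c₂ y).card := by
        rw [Nat.one_le_iff_ne_zero, ← Nat.pos_iff_ne_zero, card_pos]
        exact ⟨(i, b), by simp [hc₂]⟩
      have h3 : Fintype.card (Fin g × Bool) = 2 * g := by
        rw [Fintype.card_prod, Fintype.card_fin, Fintype.card_bool, mul_comm]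
      have h4 : (univ.filter fun y : Fin J × Bool → Fin D => b ∈ c₁ y).card *
          Fintype.card (Fin g × Bool) ≤ Fintype.card (Fin J × Bool → Fin D) := by
        obtain ⟨x, hx⟩ : ∃ x, x = (univ.filter fun y : Fin J × Bool → Fin D => b ∈ c₁ y).card :=
          ⟨_, rfl⟩
        have h1 : x * D ≤ J * Fintype.card (Fin J × Bool → Fin D) := hx ▸ h1
        rw [← hx]
        have h5 : J * (x * Fintype.card (Fin g × Bool)) ≤
            J * Fintype.card (Fin J × Bool → Fin D) := by
          rw [h3]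
          refine le_trans (le_of_eq ?_) h1
          calc J * (x * (2 * g)) = x * (2 * g * J) := by ring
            _ = x * D := congrArg (fun a => x * a) hD.symm
        exact Nat.le_of_mul_le_mul_left h5 hJ
      have h5 : ((univ.filter fun y : Fin J × Bool → Fin D => b ∈ c₁ y).card : ℝ) *
          Fintype.card (Fin g × Bool) ≤ Fintype.card (Fin J × Bool → Fin D) := by
        exact_mod_cast h4
      have h6 : (1 : ℝ) ≤ (univ.filter fun y : Fin g × Bool => b ∈ c₂ y).card := by
        exact_mod_cast h2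
      refine h5.trans ?_
      have h7 : (0 : ℝ) ≤ Fintype.card (Fin J × Bool → Fin D) := Nat.cast_nonneg _
      nlinarith) f (by
      intro a v b
      simp only [hf]
      apply Pool.Agent.T9h34.ind_mono
      intro h1 h2
      exact h1 (hmono a v ∅ {b} (empty_subset _) h2)) (by
      intro a v
      simp only [hf]
      by_cases h0 : ∃ S ∈ 𝒢, ∀ v' ∈ Rf S, σ S v' ∈ Function.update a v ∅ v'
      · rw [ind_not (not_not.2 (hmono a v ∅ {true} (empty_subset _) h0)),
          ind_not (not_not.2 (hmono a v ∅ {false} (empty_subset _) h0)),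
          ind_not (not_not.2 (hmono a v ∅ univ (empty_subset _) h0)), ind_not (not_not.2 h0)]
      · rw [ind_of h0]
        by_cases h1 : ∃ S ∈ 𝒢, ∀ v' ∈ Rf S, σ S v' ∈ Function.update a v univ v'
        · rw [ind_not (not_not.2 h1)]
          obtain ⟨S, hS, h2⟩ := h1
          have h3 : ∃ b : Bool, ∀ v' ∈ Rf S, σ S v' ∈ Function.update a v {b} v' := by
            refine ⟨σ S v, fun v' hv' => ?_⟩
            have h4 := h2 v' hv'
            by_cases hvv : v' = v
            · subst hvv
              rw [Function.update_self]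
              exact mem_singleton_self _
            · rw [Function.update_of_ne hvv] at h4 ⊢
              exact h4
          obtain ⟨b, hb⟩ := h3
          cases b
          · rw [ind_not (p := ¬ ∃ S ∈ 𝒢, ∀ v' ∈ Rf S, σ S v' ∈ Function.update a v {false} v')
              (not_not.2 ⟨S, hS, hb⟩)]
            have := ind_le_one (¬ ∃ S ∈ 𝒢, ∀ v' ∈ Rf S, σ S v' ∈ Function.update a v {true} v')
            linarith
          · rw [ind_not (p := ¬ ∃ S ∈ 𝒢, ∀ v' ∈ Rf S, σ S v' ∈ Function.update a v {true} v')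
              (not_not.2 ⟨S, hS, hb⟩)]
            have := ind_le_one (¬ ∃ S ∈ 𝒢, ∀ v' ∈ Rf S, σ S v' ∈ Function.update a v {false} v')
            linarith
        · rw [ind_of h1]
          have e1 := ind_le_one (¬ ∃ S ∈ 𝒢, ∀ v' ∈ Rf S, σ S v' ∈ Function.update a v {true} v')
          have e2 := ind_le_one (¬ ∃ S ∈ 𝒢, ∀ v' ∈ Rf S, σ S v' ∈ Function.update a v {false} v')
          linarith)
  -- the right-hand side
  have hR : (∑ ω₁ : V → (Fin J × Bool → Fin D), f (fun v => c₁ (ω₁ v))) /
      Fintype.card (V → (Fin J × Bool → Fin D)) = En D J (fun W => ind (¬ ∃ S ∈ 𝒢, F S ⊆ W)) := by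
    rw [En_eq]
    obtain ⟨e, he⟩ : ∃ e : (V → (Fin J × Bool → Fin D)) ≃ (Fin J → V × Bool → Fin D),
        ∀ ω j l, e ω j l = ω l.1 (j, l.2) :=
      ⟨⟨fun ω j l => ω l.1 (j, l.2), fun φ v p => φ p.1 (v, p.2), fun ω => rfl, fun φ => rfl⟩,
        fun _ _ _ => rfl⟩
    rw [Fintype.card_congr e]
    congr 1
    apply Fintype.sum_equiv e
    intro ω
    simp only [hf]
    congr 1
    apply propext
    apply not_congr
    apply exists_congr
    intro S
    apply and_congr_right
    intro hS
    constructor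
    · intro h l hl
      rw [hFmem] at hl
      have h1 := h l.1 hl.1
      simp only [hc₁, mem_filter, mem_univ, true_and] at h1
      obtain ⟨j, hj⟩ := h1
      rw [mem_filter]
      refine ⟨mem_univ _, j, ?_⟩
      rw [he, hl.2]
      exact hj
    · intro h v hv
      have h1 := h ((hFmem S (v, σ S v)).2 ⟨hv, rfl⟩)
      rw [mem_filter] at h1
      obtain ⟨-, j, hj⟩ := h1
      rw [he] at hj
      simp only [hc₁, mem_filter, mem_univ, true_and]
      exact ⟨j, hj⟩
  have hL : (∑ ω₂ : V → Fin g × Bool, f (fun v => c₂ (ω₂ v))) =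
      ((univ.filter fun ω : V → Fin g × Bool => ∀ S ∈ 𝒢, ∃ v ∈ Rf S, ω v ≠ (i, σ S v)).card : ℝ) := by
    rw [← sum_boole]
    apply sum_congr rfl
    intro ω _
    simp only [hf]
    have h1 : (¬ ∃ S ∈ 𝒢, ∀ v ∈ Rf S, σ S v ∈ c₂ (ω v)) ↔
        ∀ S ∈ 𝒢, ∃ v ∈ Rf S, ω v ≠ (i, σ S v) := by
      have h2 : ∀ S v, σ S v ∈ c₂ (ω v) ↔ ω v = (i, σ S v) := by
        intro S v
        simp only [hc₂]
        split_ifs with h
        · rw [mem_singleton]
          constructor
          · intro h3
            exact Prod.ext h h3.symm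
          · intro h3
            rw [h3]
        · constructor
          · intro h3
            simp at h3
          · intro h3
            exact (h (by rw [h3])).elim
      simp only [h2]
      push Not
      rfl
    by_cases h2 : ∀ S ∈ 𝒢, ∃ v ∈ Rf S, ω v ≠ (i, σ S v)
    · rw [if_pos h2, ind_of (h1.2 h2)]
    · rw [if_neg h2, ind_not (fun h3 => h2 (h1.1 h3))]
  rw [hR, hL] at hyb
  have hfin := hyb.trans hEn
  have hN : (0 : ℝ) < Fintype.card (V → Fin g × Bool) := by exact_mod_cast Fintype.card_pos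
  rw [div_le_iff₀ hN] at hfin
  linarith

end

end Pool.Agent.T9h16.Rand
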