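import Pool.Agent.T9h16.Rand2.Kernel2
import Pool.Agent.T9h16.Rand.Slp

/-!
Closed families have few minimal sets; small unsatisfiable subformulas are rare (sharper versions).
-/

set_option autoImplicit false
set_option linter.unusedSectionVars false

namespace Pool.Agent.T9h16.Rand

open Finset
open scoped Classical

section
variable {V E : Type} [Fintype V] [Fintype E] {sat : (V → Bool) → E → Prop} {R w : ℕ}

theorem fewMin2 [Nonempty V] {vars : E → Finset V} {k : ℕ} (hk2 : 2 ≤ k) (sgn : E → V → Bool)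
    (hk : ∀ e, (vars e).card = k)
    (hsat : ∀ e v x, v ∈ vars e → x v = sgn e v → sat x e)
    (hwt : ∀ wt : V → ℝ, (∀ v, 0 ≤ wt v) → ∑ e : E, ∏ v ∈ vars e, wt v ≤ (2 * ∑ v, wt v) ^ k)
    (hw1 : 1 ≤ w) (hR : 1 ≤ R) (J Λ D : ℕ) (hJ : 1 ≤ J) (hwJ : w < 2 ^ J)
    (hΛ : Λ = k * w * (96 * (R * J ^ 2)))
    (hD : D = 36 * 4 ^ k * (Λ ^ (k - 2) * (Fintype.card V + Λ ^ 2)))
    {𝒜 : Set (Finset E)} (hA : ClosedF sat R w 𝒜) : FewMin D 𝒜 := by
  intro I j
  by_contra hcon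
  rw [not_le] at hcon
  obtain ⟨T, ⟨S, hS, hTS⟩, hT⟩ := kernel2 hk2 sgn sat hk hsat hwt w R J hw1 hR hJ hwJ Λ D hΛ hD
    ((MinF 𝒜).filter fun S => I ⊆ S ∧ S.card = I.card + j) I j
    (fun S hS => (mem_filter.1 hS).2.1) (fun S hS => (mem_filter.1 hS).2.2)
    (fun S hS => by
      have h1 := (mem_filter.1 hS).1
      rw [MinF, mem_filter] at h1
      exact hA.1 S h1.2.1) hcon
  have hS1 := (mem_filter.1 hS).1
  rw [MinF, mem_filter] at hS1
  have hTw : T.card ≤ w := (card_le_card hTS.1).trans (hA.1 S hS1.2.1)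
  have hTA : T ∈ 𝒜 := by
    apply hA.2 T hTw
    refine le_trans (Nat.mul_le_mul_right _ (card_le_card ?_)) hT
    intro x hx
    simp only [mem_filter, mem_univ, true_and] at hx ⊢
    intro S' hS'
    by_contra hno
    simp only [not_exists, not_and, not_not] at hno
    have h2 : S' ∈ 𝒜 := by
      have := hS'.1
      rw [MinF, mem_filter] at this
      exact this.2.1
    apply hx.2
    refine ⟨S', h2, ?_⟩
    intro e he
    by_cases heT : e ∈ T
    · exact hx.1 e heT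
    · exact hno e he heT
  have h3 := hS1.2.2 T hTA hTS.1
  rw [h3] at hTS
  exact (lt_irrefl _ hTS)

theorem sq_le_four_pow (q : ℕ) : (q : ℝ) ^ 2 ≤ 4 ^ q := by
  have h1 : (q : ℝ) ≤ 2 ^ q := by
    have := @Nat.lt_two_pow_self q
    exact_mod_cast this.le
  calc (q : ℝ) ^ 2 ≤ (2 ^ q) ^ 2 := pow_le_pow_left₀ (Nat.cast_nonneg _) h1 2
    _ = 4 ^ q := by
        rw [← pow_mul, mul_comm, pow_mul]
        norm_num

/-- A random set of constraints rarely contains a small unsatisfiable set. -/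
theorem small_unsat2 {ι : Type} [Fintype ι] [Nonempty V] {vars : E → Finset V} {k : ℕ}
    (hk2 : 2 ≤ k) (sgn : E → V → Bool) (hk : ∀ e, (vars e).card = k)
    (hsat : ∀ e v x, v ∈ vars e → x v = sgn e v → sat x e)
    (hwt : ∀ wt : V → ℝ, (∀ v, 0 ≤ wt v) → ∑ e : E, ∏ v ∈ vars e, wt v ≤ (2 * ∑ v, wt v) ^ k)
    (hE : 0 < Fintype.card E)
    (hρ : (Fintype.card V : ℝ) * (w : ℝ) ^ (k - 2) * (36 * 4 ^ k) *
      ((Fintype.card ι : ℝ) / Fintype.card E) ≤ 1 / 4) :
    3 * (Fintype.card V * (univ.filter fun φ : ι → E => ∃ S : Finset E, S.card ≤ w ∧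
      (∀ e ∈ S, ∃ i, φ i = e) ∧ ¬ ∃ x : V → Bool, ∀ e ∈ S, sat x e).card) ≤
      Fintype.card E ^ Fintype.card ι := by
  obtain ⟨ρ, hρdef⟩ : ∃ ρ : ℝ, ρ = (Fintype.card ι : ℝ) / Fintype.card E := ⟨_, rfl⟩
  have hρ0 : 0 ≤ ρ := by rw [hρdef]; positivity
  rw [← hρdef] at hρ
  have hV0 : 0 < Fintype.card V := Fintype.card_pos
  have hV1 : (0 : ℝ) < Fintype.card V := by exact_mod_cast hV0
  set X := (Fintype.card E : ℝ) ^ Fintype.card ι with hX
  have hX0 : 0 ≤ X := by positivity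
  set 𝒬 := (univ : Finset (Finset E)).filter fun Q =>
    Q.card ≤ w ∧ MinViol vars (∅ : Finset V) Q with h𝒬
  have hsub : (univ.filter fun φ : ι → E => ∃ S : Finset E, S.card ≤ w ∧
      (∀ e ∈ S, ∃ i, φ i = e) ∧ ¬ ∃ x : V → Bool, ∀ e ∈ S, sat x e) ⊆
      𝒬.biUnion fun Q => univ.filter fun φ : ι → E => ∀ z ∈ Q, ∃ i, φ i = z := by
    intro φ hφ
    rw [mem_filter] at hφ
    obtain ⟨-, S, hSw, hSφ, hS⟩ := hφ
    rcases exists_rep_or_viol (vars := vars) S (∅ : Finset V) with ⟨rep, h1, h2⟩ | ⟨Q₁, hQ₁S, hQ₁⟩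
    · exfalso
      apply hS
      refine ⟨fun v => if h : ∃ e ∈ S, rep e = v then sgn h.choose v else true, ?_⟩
      intro e he
      apply hsat e (rep e) _ (h1 e he).1
      have h3 : ∃ e' ∈ S, rep e' = rep e := ⟨e, he, rfl⟩
      rw [dif_pos h3]
      have h4 := h3.choose_spec
      rw [h2 (mem_coe.2 h4.1) (mem_coe.2 he) h4.2]
    · obtain ⟨Q, hQQ₁, hQ⟩ := exists_minViol hQ₁
      have hQS := hQQ₁.trans hQ₁S
      rw [mem_biUnion]
      refine ⟨Q, ?_, ?_⟩
      · rw [h𝒬, mem_filter]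
        exact ⟨mem_univ _, (card_le_card hQS).trans hSw, hQ⟩
      · rw [mem_filter]
        exact ⟨mem_univ _, fun z hz => hSφ z (hQS hz)⟩
  have h1 : ((univ.filter fun φ : ι → E => ∃ S : Finset E, S.card ≤ w ∧
      (∀ e ∈ S, ∃ i, φ i = e) ∧ ¬ ∃ x : V → Bool, ∀ e ∈ S, sat x e).card : ℝ) ≤
      ∑ Q ∈ 𝒬, X * ρ ^ Q.card := by
    have h2 : ((univ.filter fun φ : ι → E => ∃ S : Finset E, S.card ≤ w ∧
        (∀ e ∈ S, ∃ i, φ i = e) ∧ ¬ ∃ x : V → Bool, ∀ e ∈ S, sat x e).card : ℝ) ≤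
        ∑ Q ∈ 𝒬, ((univ.filter fun φ : ι → E => ∀ z ∈ Q, ∃ i, φ i = z).card : ℝ) := by
      exact_mod_cast (card_le_card hsub).trans card_biUnion_le
    refine h2.trans (sum_le_sum fun Q _ => ?_)
    rw [hX, hρdef]
    exact card_contain_real hE Q
  have hmaps : ∀ Q ∈ 𝒬, Q.card - 1 ∈ range w := by
    intro Q hQ𝒬
    rw [h𝒬, mem_filter] at hQ𝒬
    have := card_pos.2 hQ𝒬.2.2.nonempty
    rw [mem_range]
    omega
  have h2 : (∑ Q ∈ 𝒬, X * ρ ^ Q.card) * Fintype.card V ≤ X * (1 / 3) := by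
    rw [← sum_fiberwise_of_maps_to hmaps, sum_mul]
    refine le_trans (sum_le_sum (g := fun q => X * (1 / 4 : ℝ) ^ (q + 1)) ?_) ?_
    · intro q hq
      rw [mem_range] at hq
      have h5 : ∀ Q ∈ 𝒬.filter fun Q => Q.card - 1 = q, X * ρ ^ Q.card = X * ρ ^ (q + 1) := by
        intro Q hQ𝒬
        rw [mem_filter, h𝒬, mem_filter] at hQ𝒬
        have := card_pos.2 hQ𝒬.1.2.2.nonempty
        congr 2
        omega
      rw [sum_congr rfl h5, sum_const, nsmul_eq_mul]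
      have hq1 : (1 : ℝ) ≤ ((q + 1 : ℕ) : ℝ) := by
        push_cast
        have : (0 : ℝ) ≤ q := Nat.cast_nonneg q
        linarith
      have h6 := card_minViol hk2 hk hwt ∅ 1 ((q + 1 : ℕ) : ℝ) le_rfl (q + 1) (by omega) le_rfl
        (by
          rw [card_empty, Nat.cast_zero, mul_zero]
          exact Nat.cast_nonneg _)
      rw [Nat.add_sub_cancel] at h6
      have h7 : ((𝒬.filter fun Q => Q.card - 1 = q).card : ℝ) ≤
          (Fintype.card V : ℝ) ^ q * ((q + 1 : ℕ) : ℝ) ^ ((k - 2) * (q + 1) + 2) *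
            (9 * 4 ^ k) ^ (q + 1) := by
        refine le_trans ?_ h6
        simp only [one_pow, sum_const, nsmul_eq_mul, mul_one]
        have h8 : (𝒬.filter fun Q => Q.card - 1 = q).card ≤ (univ.filter fun Q : Finset E =>
            MinViol vars ∅ Q ∧ Q.card = q + 1).card := by
          apply card_le_card
          intro Q hQ𝒬
          rw [mem_filter, h𝒬, mem_filter] at hQ𝒬
          have := card_pos.2 hQ𝒬.1.2.2.nonempty
          rw [mem_filter]
          exact ⟨mem_univ _, hQ𝒬.1.2.2, by omega⟩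
        exact_mod_cast h8
      have h8 : (((q + 1 : ℕ) : ℝ)) ^ ((k - 2) * (q + 1) + 2) ≤
          ((w : ℝ) ^ (k - 2)) ^ (q + 1) * 4 ^ (q + 1) := by
        rw [pow_add, pow_mul]
        apply mul_le_mul _ (sq_le_four_pow (q + 1)) (by positivity) (by positivity)
        apply pow_le_pow_left₀ (by positivity)
        apply pow_le_pow_left₀ (by positivity)
        have : q + 1 ≤ w := by omega
        exact_mod_cast this
      calc ((𝒬.filter fun Q => Q.card - 1 = q).card : ℝ) * (X * ρ ^ (q + 1)) * Fintype.card V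
          ≤ ((Fintype.card V : ℝ) ^ q * (((w : ℝ) ^ (k - 2)) ^ (q + 1) * 4 ^ (q + 1)) *
            (9 * 4 ^ k) ^ (q + 1)) * (X * ρ ^ (q + 1)) * Fintype.card V := by
            apply mul_le_mul_of_nonneg_right _ hV1.le
            apply mul_le_mul_of_nonneg_right _ (by positivity)
            refine h7.trans ?_
            apply mul_le_mul_of_nonneg_right _ (by positivity)
            exact mul_le_mul_of_nonneg_left h8 (by positivity)
        _ = X * ((Fintype.card V : ℝ) * (w : ℝ) ^ (k - 2) * (36 * 4 ^ k) * ρ) ^ (q + 1) := by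
            have e1 : (36 : ℝ) * 4 ^ k = 4 * (9 * 4 ^ k) := by ring
            rw [e1, mul_pow, mul_pow, mul_pow, mul_pow 4 (9 * 4 ^ k) (q + 1)]
            ring
        _ ≤ X * (1 / 4 : ℝ) ^ (q + 1) := by
            apply mul_le_mul_of_nonneg_left _ hX0
            exact pow_le_pow_left₀ (by positivity) hρ _
    · rw [← mul_sum]
      exact mul_le_mul_of_nonneg_left (geo_quarter w) hX0
  have h3 : ((univ.filter fun φ : ι → E => ∃ S : Finset E, S.card ≤ w ∧
      (∀ e ∈ S, ∃ i, φ i = e) ∧ ¬ ∃ x : V → Bool, ∀ e ∈ S, sat x e).card : ℝ) *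
      Fintype.card V ≤ X * (1 / 3) :=
    (mul_le_mul_of_nonneg_right h1 hV1.le).trans h2
  have h4 : 3 * ((Fintype.card V : ℝ) * ((univ.filter fun φ : ι → E => ∃ S : Finset E,
      S.card ≤ w ∧ (∀ e ∈ S, ∃ i, φ i = e) ∧ ¬ ∃ x : V → Bool, ∀ e ∈ S, sat x e).card : ℝ)) ≤
      X := by linarith
  rw [hX] at h4
  exact_mod_cast h4

end

end Pool.Agent.T9h16.Rand
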