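import Pool.Agent.T9h16.Rand2.Approx2
import Pool.Agent.T9h16.Rand.Clause

/-!
Clauses with `k` literals on `k` distinct variables: the sharper theorems.
-/

set_option autoImplicit false
set_option linter.unusedSectionVars false

namespace Pool.Agent.T9h16.Rand

open Finset
open scoped Classical
open Pool.Agent.T9h16 (Leaf Avail IsSLP)

section
variable {V : Type} [Fintype V] {k : ℕ} {E : Type} {lits : E → Finset (V × Bool)} [Fintype E]

theorem cvars_card' (H : IsCl k lits) (c : E) : (cvars lits c).card = k := by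
  unfold cvars
  rw [card_image_of_injOn, H.card c]
  intro l hl l' hl' h
  exact H.dist c l hl l' hl' h

theorem cwt (H : IsCl k lits) (wt : V → ℝ) (hwt : ∀ v, 0 ≤ wt v) :
    ∑ e : E, ∏ v ∈ cvars lits e, wt v ≤ (2 * ∑ v, wt v) ^ k := by
  have h1 : ∀ e : E, ∏ v ∈ cvars lits e, wt v = ∏ l ∈ lits e, wt l.1 := by
    intro e
    unfold cvars
    rw [prod_image]
    intro l hl l' hl' h
    exact H.dist e l hl l' hl' h
  have h2 : ∑ l : V × Bool, wt l.1 = 2 * ∑ v, wt v := by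
    rw [Fintype.sum_prod_type, mul_sum]
    apply sum_congr rfl
    intro v _
    rw [Fintype.sum_bool]
    ring
  have h3 := esymm_le (fun l : V × Bool => wt l.1) (fun l => hwt l.1) univ k
  rw [h2] at h3
  have h0 : ∀ Q : Finset (V × Bool), 0 ≤ ∏ l ∈ Q, wt l.1 := fun Q => prod_nonneg fun l _ => hwt l.1
  calc ∑ e : E, ∏ v ∈ cvars lits e, wt v = ∑ e : E, ∏ l ∈ lits e, wt l.1 :=
        sum_congr rfl fun e _ => h1 e
    _ = ∑ Q ∈ univ.image lits, ∏ l ∈ Q, wt l.1 := by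
        rw [sum_image]
        intro e _ e' _ h
        exact H.inj h
    _ ≤ ∑ Q ∈ powersetCard k (univ : Finset (V × Bool)), ∏ l ∈ Q, wt l.1 := by
        apply sum_le_sum_of_subset_of_nonneg
        · intro Q hQ
          rw [mem_image] at hQ
          obtain ⟨e, -, rfl⟩ := hQ
          rw [mem_powersetCard]
          exact ⟨subset_univ _, H.card e⟩
        · intro Q _ _
          exact h0 Q
    _ ≤ (k.factorial : ℝ) * ∑ Q ∈ powersetCard k (univ : Finset (V × Bool)), ∏ l ∈ Q, wt l.1 := by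
        have h4 : (1 : ℝ) ≤ k.factorial := by exact_mod_cast Nat.factorial_pos k
        have h5 : 0 ≤ ∑ Q ∈ powersetCard k (univ : Finset (V × Bool)), ∏ l ∈ Q, wt l.1 :=
          sum_nonneg fun Q _ => h0 Q
        nlinarith
    _ ≤ _ := h3

end

/-- The bound for the density. -/
theorem density2 {n k w m M R L J Y Λ D : ℕ} (hk : 2 ≤ k) (hkn : n ^ k ≤ k ^ k * M)
    (hY : Y = k ^ 2 * w ^ 2 * (L + 1) * J ^ 2)
    (hm : m * ((663552 * k) ^ k * (Y ^ (k - 2) * (n + Y ^ 2))) ≤ n ^ k)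
    (hR : R = (3 * k + 5) * w * (L + 1)) (hΛ : Λ = k * w * (96 * (R * J ^ 2)))
    (hD : D = 36 * 4 ^ k * (Λ ^ (k - 2) * (n + Λ ^ 2))) : 8 * D * m ≤ M := by
  have hkk : 0 < k ^ k := Nat.pow_pos (by omega)
  have hΛY : Λ ≤ 576 * Y := by
    rw [hΛ, hR, hY]
    calc k * w * (96 * ((3 * k + 5) * w * (L + 1) * J ^ 2))
        ≤ k * w * (96 * ((6 * k) * w * (L + 1) * J ^ 2)) := by
          apply Nat.mul_le_mul_left
          apply Nat.mul_le_mul_left
          apply Nat.mul_le_mul_right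
          apply Nat.mul_le_mul_right
          apply Nat.mul_le_mul_right
          omega
      _ = 576 * (k ^ 2 * w ^ 2 * (L + 1) * J ^ 2) := by ring
  have hΛ2 : Λ ^ (k - 2) * (n + Λ ^ 2) ≤ 576 ^ k * (Y ^ (k - 2) * (n + Y ^ 2)) := by
    calc Λ ^ (k - 2) * (n + Λ ^ 2) ≤ (576 * Y) ^ (k - 2) * (576 ^ 2 * n + (576 * Y) ^ 2) := by
          apply Nat.mul_le_mul (Nat.pow_le_pow_left hΛY _)
          apply Nat.add_le_add
          · exact Nat.le_mul_of_pos_left _ (by norm_num)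
          · exact Nat.pow_le_pow_left hΛY 2
      _ = 576 ^ (k - 2 + 2) * (Y ^ (k - 2) * (n + Y ^ 2)) := by
          rw [mul_pow, pow_add]
          ring
      _ = _ := by rw [Nat.sub_add_cancel hk]
  have h1 : 8 * D * m * k ^ k ≤ k ^ k * M := by
    refine le_trans ?_ (hm.trans hkn)
    calc 8 * D * m * k ^ k = m * (288 * (4 ^ k * k ^ k) * (Λ ^ (k - 2) * (n + Λ ^ 2))) := by
          rw [hD]
          ring
      _ ≤ m * (288 ^ k * (4 ^ k * k ^ k) * (576 ^ k * (Y ^ (k - 2) * (n + Y ^ 2)))) := by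
          apply Nat.mul_le_mul_left
          apply Nat.mul_le_mul _ hΛ2
          apply Nat.mul_le_mul_right
          exact Nat.le_self_pow (by omega) 288
      _ = m * ((663552 * k) ^ k * (Y ^ (k - 2) * (n + Y ^ 2))) := by
          rw [show 663552 * k = 288 * (4 * k) * 576 by ring, mul_pow, mul_pow, mul_pow]
          ring
  have h2 : k ^ k * (8 * D * m) ≤ k ^ k * M := by
    rw [mul_comm (k ^ k)]
    exact h1
  exact Nat.le_of_mul_le_mul_left h2 hkk

section
variable {V : Type} [Fintype V] {n k : ℕ} {E : Type} {lits : E → Finset (V × Bool)} [Fintype E]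
  {ι : Type} [Fintype ι]

/-- The structure theorem for random sequences of clauses. -/
theorem structure_Cl2 (H : IsCl k lits) (hk : 2 ≤ k) (hn : n = Fintype.card V) (hkn : k ≤ n)
    (w : ℕ) (hw : 1 ≤ w) (Y : ℕ)
    (hY : Y = k ^ 2 * w ^ 2 * (Nat.log 2 n + 1) * (Nat.log 2 w + 1) ^ 2)
    (hm : Fintype.card ι * ((663552 * k) ^ k * (Y ^ (k - 2) * (n + Y ^ 2))) ≤ n ^ k)
    (g : ℕ → Set E → Prop) (s : ℕ) (hg : IsSLP g s) (hs : s ≤ 2 ^ w)
    (o : Set E → Prop) (ho : Avail g s o)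
    (hsound : (univ.filter fun x : V → Bool => o {e | csat lits x e}).card *
      2 ^ (k * w + 1) ≤ 2 ^ n) :
    (univ.filter fun φ : ι → E => o (Set.range φ) ∧
      ∀ S : Finset E, S.card ≤ w → (∀ e ∈ S, ∃ i, φ i = e) →
        ∃ x, ∀ e ∈ S, csat lits x e).card * 2 ^ w ≤ s * Fintype.card E ^ Fintype.card ι := by
  obtain ⟨R, hRdef⟩ : ∃ R, R = (3 * k + 5) * w * (Nat.log 2 n + 1) := ⟨_, rfl⟩
  obtain ⟨J, hJdef⟩ : ∃ J, J = Nat.log 2 w + 1 := ⟨_, rfl⟩
  obtain ⟨Λ, hΛ⟩ : ∃ Λ, Λ = k * w * (96 * (R * J ^ 2)) := ⟨_, rfl⟩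
  obtain ⟨D, hD⟩ : ∃ D, D = 36 * 4 ^ k * (Λ ^ (k - 2) * (Fintype.card V + Λ ^ 2)) := ⟨_, rfl⟩
  have hR1 : 1 ≤ R := by
    rw [hRdef]
    exact Nat.mul_pos (Nat.mul_pos (by omega) (by omega)) (by omega)
  have hJ1 : 1 ≤ J := by omega
  have hwJ : w < 2 ^ J := by
    rw [hJdef]
    exact Nat.lt_pow_succ_log_self (by norm_num) w
  have : Nonempty V := Fintype.card_pos_iff.1 (by omega)
  have hM : 0 < Fintype.card E := card_pos_of H (by omega) hn hkn
  have hMR : (0 : ℝ) < Fintype.card E := by exact_mod_cast hM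
  have h8 : 8 * D * Fintype.card ι ≤ Fintype.card E :=
    density2 hk (le_card_Cl H (by omega) hn hkn) (by rw [hY, hJdef]) hm hRdef hΛ
      (by rw [hD, ← hn])
  have h8R : 8 * (D : ℝ) * Fintype.card ι ≤ Fintype.card E := by exact_mod_cast h8
  have hρ : 2 * (D : ℝ) * ((Fintype.card ι : ℝ) / Fintype.card E) ≤ 1 / 4 := by
    rw [← mul_div_assoc, div_le_iff₀ hMR]
    linarith
  have hRR : 2 ^ (k * w + 1) * ((3 * s + 1) * UU E w) < 2 ^ R := by
    rw [hRdef]
    exact params (by omega) hw hs (hn ▸ card_Cl_le H) (UU_le E w)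
  refine structure_slp (ι := ι) (sat := csat lits) (R := R) (w := w) (vars := cvars lits)
    (cvars_card H) csat_dep hw hM D
    (fun 𝒜 h𝒜 => fewMin2 (vars := cvars lits) hk (csgn lits) (cvars_card' H) (csat_of H)
      (cwt H) hw hR1 J Λ D hJ1 hwJ hΛ hD h𝒜)
    hρ g s hg o ho hRR ?_
  rw [← hn]
  refine le_trans (Nat.mul_le_mul_right _ (card_le_card ?_)) hsound
  intro x hx
  simp only [mem_filter, mem_univ, true_and] at hx ⊢
  exact hx

/-- Small unsatisfiable subformulas are rare. -/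
theorem small_Cl2 (H : IsCl k lits) (hk : 2 ≤ k) (hn : n = Fintype.card V) (hkn : k ≤ n)
    (w : ℕ) (hw : 1 ≤ w) (Y : ℕ)
    (hY : Y = k ^ 2 * w ^ 2 * (Nat.log 2 n + 1) * (Nat.log 2 w + 1) ^ 2)
    (hm : Fintype.card ι * ((663552 * k) ^ k * (Y ^ (k - 2) * (n + Y ^ 2))) ≤ n ^ k) :
    3 * (n * (univ.filter fun φ : ι → E => ∃ S : Finset E, S.card ≤ w ∧
      (∀ e ∈ S, ∃ i, φ i = e) ∧ ¬ ∃ x : V → Bool, ∀ e ∈ S, csat lits x e).card) ≤
      Fintype.card E ^ Fintype.card ι := by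
  obtain ⟨R, hRdef⟩ : ∃ R, R = (3 * k + 5) * w * (Nat.log 2 n + 1) := ⟨_, rfl⟩
  obtain ⟨J, hJdef⟩ : ∃ J, J = Nat.log 2 w + 1 := ⟨_, rfl⟩
  obtain ⟨Λ, hΛ⟩ : ∃ Λ, Λ = k * w * (96 * (R * J ^ 2)) := ⟨_, rfl⟩
  obtain ⟨D, hD⟩ : ∃ D, D = 36 * 4 ^ k * (Λ ^ (k - 2) * (n + Λ ^ 2)) := ⟨_, rfl⟩
  have hR1 : 1 ≤ R := by
    rw [hRdef]
    exact Nat.mul_pos (Nat.mul_pos (by omega) (by omega)) (by omega)
  have hJ1 : 1 ≤ J := by omega
  have : Nonempty V := Fintype.card_pos_iff.1 (by omega)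
  have hM : 0 < Fintype.card E := card_pos_of H (by omega) hn hkn
  have hMR : (0 : ℝ) < Fintype.card E := by exact_mod_cast hM
  have h8 : 8 * D * Fintype.card ι ≤ Fintype.card E :=
    density2 hk (le_card_Cl H (by omega) hn hkn) (by rw [hY, hJdef]) hm hRdef hΛ hD
  have h8R : 8 * (D : ℝ) * Fintype.card ι ≤ Fintype.card E := by exact_mod_cast h8
  have h := small_unsat2 (ι := ι) (sat := csat lits) (w := w) (vars := cvars lits) hk (csgn lits)
    (cvars_card' H) (csat_of H) (cwt H) hM (by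
      rw [← mul_div_assoc, div_le_iff₀ hMR]
      have h1 : n * w ^ (k - 2) * (36 * 4 ^ k) ≤ D := by
        rw [hD]
        have hwΛ : w ≤ Λ := by
          rw [hΛ]
          calc w = 1 * w * 1 := by ring
            _ ≤ k * w * (96 * (R * J ^ 2)) := by
                apply Nat.mul_le_mul (Nat.mul_le_mul_right _ (by omega))
                have : 0 < R * J ^ 2 := by positivity
                omega
        calc n * w ^ (k - 2) * (36 * 4 ^ k) = 36 * 4 ^ k * (w ^ (k - 2) * n) := by ring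
          _ ≤ _ := by
              apply Nat.mul_le_mul_left
              exact Nat.mul_le_mul (Nat.pow_le_pow_left hwΛ _) (Nat.le_add_right _ _)
      have h2 : (n : ℝ) * (w : ℝ) ^ (k - 2) * (36 * 4 ^ k) ≤ D := by exact_mod_cast h1
      rw [← hn]
      have h3 : (0 : ℝ) ≤ Fintype.card ι := Nat.cast_nonneg _
      have h5 := mul_le_mul_of_nonneg_right h2 h3
      have h6 : (0 : ℝ) ≤ D * Fintype.card ι := mul_nonneg (Nat.cast_nonneg _) h3
      linarith)
  rw [← hn] at h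
  exact h

end

end Pool.Agent.T9h16.Rand
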