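import Pool.Agent.T9h16.Rand2.Clause2
import Pool.Agent.T9h16.Rand2.Gen

/-!
General random sets of clauses.
-/

set_option autoImplicit false
set_option linter.unusedSectionVars false

namespace Pool.Agent.T9h16.Rand

open Finset
open scoped Classical
open Pool.Agent.T9h16 (Leaf Avail IsSLP)

section
variable {V : Type} [Fintype V] {n k m : ℕ} {E : Type} {lits : E → Finset (V × Bool)} [Fintype E]
  {Ω : Type} [Fintype Ω] {z : Ω → Set E}

/-- The structure theorem for random sequences of clauses. -/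
theorem structure_Cl3 (H : IsCl k lits) (hk : 2 ≤ k) (hn : n = Fintype.card V) (hkn : k ≤ n)
    (w : ℕ) (hw : 1 ≤ w) (Y : ℕ)
    (hY : Y = k ^ 2 * w ^ 2 * (Nat.log 2 n + 1) * (Nat.log 2 w + 1) ^ 2)
    (hm : m * ((663552 * k) ^ k * (Y ^ (k - 2) * (n + Y ^ 2))) ≤ n ^ k)
    (g : ℕ → Set E → Prop) (s : ℕ) (hg : IsSLP g s) (hs : s ≤ 2 ^ w)
    (o : Set E → Prop) (ho : Avail g s o)
    (hz : Few z ((m : ℝ) / Fintype.card E))
    (hsound : (univ.filter fun x : V → Bool => o {e | csat lits x e}).card *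
      2 ^ (k * w + 1) ≤ 2 ^ n) :
    (univ.filter fun φ : Ω => o (z φ) ∧
      ∀ S : Finset E, S.card ≤ w → (∀ e ∈ S, e ∈ z φ) →
        ∃ x, ∀ e ∈ S, csat lits x e).card * 2 ^ w ≤ s * Fintype.card Ω := by
  obtain ⟨R, hRdef⟩ : ∃ R, R = (3 * k + 5) * w * (Nat.log 2 n + 1) := ⟨_, rfl⟩
  obtain ⟨J, hJdef⟩ : ∃ J, J = Nat.log 2 w + 1 := ⟨_, rfl⟩
  obtain ⟨Λ, hΛ⟩ : ∃ Λ, Λ = k * w * (96 * (R * J ^ 2)) := ⟨_, rfl⟩
  obtain ⟨D, hD⟩ : ∃ D, D = 36 * 4 ^ k * (Λ ^ (k - 2) * (Fintype.card V + Λ ^ 2)) := ⟨_, rfl⟩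
  have hR1 : 1 ≤ R := by
    rw [hRdef]
    exact Nat.mul_pos (Nat.mul_pos (by omega) (by omega)) (by omega)
  have hJ1 : 1 ≤ J := by omega
  have hwJ : w < 2 ^ J := by
    rw [hJdef]
    exact Nat.lt_pow_succ_log_self (by norm_num) w
  have : Nonempty V := Fintype.card_pos_iff.1 (by omega)
  have hM : 0 < Fintype.card E := card_pos_of H (by omega) hn hkn
  have hMR : (0 : ℝ) < Fintype.card E := by exact_mod_cast hM
  have h8 : 8 * D * m ≤ Fintype.card E :=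
    density2 hk (le_card_Cl H (by omega) hn hkn) (by rw [hY, hJdef]) hm hRdef hΛ
      (by rw [hD, ← hn])
  have h8R : 8 * (D : ℝ) * m ≤ Fintype.card E := by exact_mod_cast h8
  have hρ0 : (0 : ℝ) ≤ (m : ℝ) / Fintype.card E := by positivity
  have hρ : 2 * (D : ℝ) * ((m : ℝ) / Fintype.card E) ≤ 1 / 4 := by
    rw [← mul_div_assoc, div_le_iff₀ hMR]
    linarith
  have hRR : 2 ^ (k * w + 1) * ((3 * s + 1) * UU E w) < 2 ^ R := by
    rw [hRdef]
    exact params (by omega) hw hs (hn ▸ card_Cl_le H) (UU_le E w)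
  refine structure_slp3 (sat := csat lits) (R := R) (w := w) (vars := cvars lits)
    (cvars_card H) csat_dep hw hρ0 hz D
    (fun 𝒜 h𝒜 => fewMin2 (vars := cvars lits) hk (csgn lits) (cvars_card' H) (csat_of H)
      (cwt H) hw hR1 J Λ D hJ1 hwJ hΛ hD h𝒜)
    hρ g s hg o ho hRR ?_
  rw [← hn]
  refine le_trans (Nat.mul_le_mul_right _ (card_le_card ?_)) hsound
  intro x hx
  simp only [mem_filter, mem_univ, true_and] at hx ⊢
  exact hx

/-- Small unsatisfiable subformulas are rare. -/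
theorem small_Cl3 (H : IsCl k lits) (hk : 2 ≤ k) (hn : n = Fintype.card V) (hkn : k ≤ n)
    (w : ℕ) (hw : 1 ≤ w) (Y : ℕ)
    (hY : Y = k ^ 2 * w ^ 2 * (Nat.log 2 n + 1) * (Nat.log 2 w + 1) ^ 2)
    (hm : m * ((663552 * k) ^ k * (Y ^ (k - 2) * (n + Y ^ 2))) ≤ n ^ k)
    (hz : Few z ((m : ℝ) / Fintype.card E)) :
    3 * (n * (univ.filter fun φ : Ω => ∃ S : Finset E, S.card ≤ w ∧
      (∀ e ∈ S, e ∈ z φ) ∧ ¬ ∃ x : V → Bool, ∀ e ∈ S, csat lits x e).card) ≤
      Fintype.card Ω := by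
  obtain ⟨R, hRdef⟩ : ∃ R, R = (3 * k + 5) * w * (Nat.log 2 n + 1) := ⟨_, rfl⟩
  obtain ⟨J, hJdef⟩ : ∃ J, J = Nat.log 2 w + 1 := ⟨_, rfl⟩
  obtain ⟨Λ, hΛ⟩ : ∃ Λ, Λ = k * w * (96 * (R * J ^ 2)) := ⟨_, rfl⟩
  obtain ⟨D, hD⟩ : ∃ D, D = 36 * 4 ^ k * (Λ ^ (k - 2) * (n + Λ ^ 2)) := ⟨_, rfl⟩
  have hR1 : 1 ≤ R := by
    rw [hRdef]
    exact Nat.mul_pos (Nat.mul_pos (by omega) (by omega)) (by omega)
  have hJ1 : 1 ≤ J := by omega
  have : Nonempty V := Fintype.card_pos_iff.1 (by omega)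
  have hM : 0 < Fintype.card E := card_pos_of H (by omega) hn hkn
  have hMR : (0 : ℝ) < Fintype.card E := by exact_mod_cast hM
  have h8 : 8 * D * m ≤ Fintype.card E :=
    density2 hk (le_card_Cl H (by omega) hn hkn) (by rw [hY, hJdef]) hm hRdef hΛ hD
  have h8R : 8 * (D : ℝ) * m ≤ Fintype.card E := by exact_mod_cast h8
  have hρ0 : (0 : ℝ) ≤ (m : ℝ) / Fintype.card E := by positivity
  have h := small_unsat3 (sat := csat lits) (w := w) (vars := cvars lits) hk (csgn lits)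
    (cvars_card' H) (csat_of H) (cwt H) hρ0 hz (by
      rw [← mul_div_assoc, div_le_iff₀ hMR]
      have h1 : n * w ^ (k - 2) * (36 * 4 ^ k) ≤ D := by
        rw [hD]
        have hwΛ : w ≤ Λ := by
          rw [hΛ]
          calc w = 1 * w * 1 := by ring
            _ ≤ k * w * (96 * (R * J ^ 2)) := by
                apply Nat.mul_le_mul (Nat.mul_le_mul_right _ (by omega))
                have : 0 < R * J ^ 2 := by positivity
                omega
        calc n * w ^ (k - 2) * (36 * 4 ^ k) = 36 * 4 ^ k * (w ^ (k - 2) * n) := by ring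
          _ ≤ _ := by
              apply Nat.mul_le_mul_left
              exact Nat.mul_le_mul (Nat.pow_le_pow_left hwΛ _) (Nat.le_add_right _ _)
      have h2 : (n : ℝ) * (w : ℝ) ^ (k - 2) * (36 * 4 ^ k) ≤ D := by exact_mod_cast h1
      rw [← hn]
      have h3 : (0 : ℝ) ≤ m := Nat.cast_nonneg _
      have h5 := mul_le_mul_of_nonneg_right h2 h3
      have h6 : (0 : ℝ) ≤ D * m := mul_nonneg (Nat.cast_nonneg _) h3
      linarith)
  rw [← hn] at h
  exact h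

end

end Pool.Agent.T9h16.Rand
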