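import Pool.Agent.T9h16.Rand.Kernel

/-!
Counting minimal sets of constraints with fewer free variables than constraints.
-/

set_option autoImplicit false
set_option linter.unusedSectionVars false

namespace Pool.Agent.T9h16.Rand

open Finset
open scoped Classical

theorem pow_succ_add_le (X g : ℝ) (hX : 0 ≤ X) (hg : 0 ≤ g) (q : ℕ) :
    X ^ (q + 1) + (q + 1) * g * X ^ q ≤ (X + g) ^ (q + 1) := by
  induction q with
  | zero => simp
  | succ q ih =>
    have h1 : (X ^ (q + 1) + (q + 1) * g * X ^ q) * (X + g) ≤ (X + g) ^ (q + 1) * (X + g) :=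
      mul_le_mul_of_nonneg_right ih (by positivity)
    have h2 : (X ^ (q + 1) + (q + 1) * g * X ^ q) * (X + g) =
        X ^ (q + 1 + 1) + ((q + 1 : ℕ) + 1) * g * X ^ (q + 1) + (q + 1) * g ^ 2 * X ^ q := by
      push_cast
      ring
    have h3 : 0 ≤ ((q : ℝ) + 1) * g ^ 2 * X ^ q := by positivity
    rw [pow_succ (X + g) (q + 1)]
    linarith

/-- Elementary symmetric polynomials are small. -/
theorem esymm_le {E : Type} (g : E → ℝ) (hg : ∀ e, 0 ≤ g e) (s : Finset E) (q : ℕ) :
    (q.factorial : ℝ) * ∑ Q ∈ powersetCard q s, ∏ e ∈ Q, g e ≤ (∑ e ∈ s, g e) ^ q := by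
  induction s using Finset.induction_on generalizing q with
  | empty =>
    cases q with
    | zero => simp
    | succ q =>
      rw [powersetCard_eq_empty.2 (by simp)]
      simp
  | insert a s ha ih =>
    cases q with
    | zero => simp
    | succ q =>
      rw [powersetCard_succ_insert ha, sum_union, sum_image, sum_insert ha]
      · have h1 : ∀ Q ∈ powersetCard q s, ∏ e ∈ insert a Q, g e = g a * ∏ e ∈ Q, g e := by
          intro Q hQ
          rw [mem_powersetCard] at hQ
          exact prod_insert fun h => ha (hQ.1 h)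
        rw [sum_congr rfl h1, ← mul_sum]
        have h2 := ih (q + 1)
        have h3 := ih q
        have h4 : (0 : ℝ) ≤ ∑ e ∈ s, g e := sum_nonneg fun e _ => hg e
        have h5 := pow_succ_add_le (∑ e ∈ s, g e) (g a) h4 (hg a) q
        have h6 : ((q + 1).factorial : ℝ) = (q + 1) * q.factorial := by
          rw [Nat.factorial_succ]
          push_cast
          ring
        have h7 : ((q : ℝ) + 1) * g a * (q.factorial * ∑ Q ∈ powersetCard q s, ∏ e ∈ Q, g e) ≤
            ((q : ℝ) + 1) * g a * (∑ e ∈ s, g e) ^ q :=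
          mul_le_mul_of_nonneg_left h3 (mul_nonneg (by positivity) (hg a))
        calc ((q + 1).factorial : ℝ) * (∑ Q ∈ powersetCard (q + 1) s, ∏ e ∈ Q, g e +
              g a * ∑ Q ∈ powersetCard q s, ∏ e ∈ Q, g e)
            = ((q + 1).factorial : ℝ) * (∑ Q ∈ powersetCard (q + 1) s, ∏ e ∈ Q, g e) +
              ((q : ℝ) + 1) * g a * (q.factorial * ∑ Q ∈ powersetCard q s, ∏ e ∈ Q, g e) := by
              rw [h6]
              ring
          _ ≤ (∑ e ∈ s, g e) ^ (q + 1) + ((q : ℝ) + 1) * g a * (∑ e ∈ s, g e) ^ q :=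
              add_le_add h2 h7
          _ ≤ (∑ e ∈ s, g e + g a) ^ (q + 1) := h5
          _ = (g a + ∑ e ∈ s, g e) ^ (q + 1) := by rw [add_comm]
      · intro Q hQ Q' hQ' h
        rw [mem_coe, mem_powersetCard] at hQ hQ'
        have e1 : (insert a Q).erase a = Q := erase_insert fun h => ha (hQ.1 h)
        have e2 : (insert a Q').erase a = Q' := erase_insert fun h => ha (hQ'.1 h)
        rw [← e1, ← e2]
        exact congrArg (fun R => erase R a) h
      · rw [disjoint_left]
        intro Q hQ hQ'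
        rw [mem_powersetCard] at hQ
        rw [mem_image] at hQ'
        obtain ⟨R, -, rfl⟩ := hQ'
        exact ha (hQ.1 (mem_insert_self a R))

theorem sum_biUnion_le_sum_sum {α β : Type} [DecidableEq β] (s : Finset α) (t : α → Finset β) (f : β → ℝ)
    (hf : ∀ b, 0 ≤ f b) : ∑ b ∈ s.biUnion t, f b ≤ ∑ a ∈ s, ∑ b ∈ t a, f b := by
  induction s using Finset.induction_on with
  | empty => simp
  | insert a s ha ih =>
    rw [biUnion_insert, sum_insert ha]
    have h1 := sum_union_inter (s₁ := t a) (s₂ := s.biUnion t) (f := f)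
    have h2 : 0 ≤ ∑ b ∈ t a ∩ s.biUnion t, f b := sum_nonneg fun b _ => hf b
    linarith

theorem pow_self_le (q : ℕ) : (q : ℝ) ^ q ≤ 3 ^ q * q.factorial := by
  have h1 := Real.pow_div_factorial_le_exp (q : ℝ) (Nat.cast_nonneg q) q
  have h2 : Real.exp (q : ℝ) ≤ 3 ^ q := by
    have h3 : Real.exp (q : ℝ) = Real.exp 1 ^ q := by rw [← Real.exp_nat_mul, mul_one]
    rw [h3]
    apply pow_le_pow_left₀ (Real.exp_pos 1).le
    have := Real.exp_one_lt_d9
    linarith
  have h3 : (0 : ℝ) < q.factorial := by exact_mod_cast Nat.factorial_pos q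
  rw [div_le_iff₀ h3] at h1
  exact h1.trans (mul_le_mul_of_nonneg_right h2 h3.le)

section
variable {V E : Type} [Fintype V] [Fintype E] {vars : E → Finset V}

/-- A minimal set of constraints with fewer variables outside `K` than constraints. -/
def MinViol (vars : E → Finset V) (K : Finset V) (Q : Finset E) : Prop :=
  (VS vars Q \ K).card < Q.card ∧ ∀ Q', Q' ⊂ Q → Q'.card ≤ (VS vars Q' \ K).card

theorem exists_minViol {K : Finset V} {Q : Finset E} (h : (VS vars Q \ K).card < Q.card) :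
    ∃ Q' ⊆ Q, MinViol vars K Q' := by
  obtain ⟨Q', hQ', hmin⟩ := exists_min_image (Q.powerset.filter fun Q' =>
    (VS vars Q' \ K).card < Q'.card) Finset.card ⟨Q, by
      rw [mem_filter, mem_powerset]
      exact ⟨subset_rfl, h⟩⟩
  rw [mem_filter, mem_powerset] at hQ'
  refine ⟨Q', hQ'.1, hQ'.2, ?_⟩
  intro Q'' hQ''
  by_contra hcon
  rw [not_le] at hcon
  have h1 := hmin Q'' (by
    rw [mem_filter, mem_powerset]
    exact ⟨hQ''.1.trans hQ'.1, hcon⟩)
  have h2 := card_lt_card hQ''
  omega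

/-- All free variables of a minimal violator occur at least twice. -/
theorem MinViol.erase {K : Finset V} {Q : Finset E} (h : MinViol vars K Q) {e : E} (he : e ∈ Q) :
    VS vars (Q.erase e) \ K = VS vars Q \ K ∧ (VS vars Q \ K).card + 1 = Q.card := by
  have h1 := h.2 (Q.erase e) (erase_ssubset he)
  rw [card_erase_of_mem he] at h1
  have h2 : VS vars (Q.erase e) \ K ⊆ VS vars Q \ K :=
    sdiff_subset_sdiff (VS_mono (erase_subset _ _)) subset_rfl
  have h3 := card_le_card h2
  have h4 := h.1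
  refine ⟨eq_of_subset_of_card_le h2 (by omega), ?_⟩
  have : 0 < Q.card := card_pos.2 ⟨e, he⟩
  omega

theorem MinViol.nonempty {K : Finset V} {Q : Finset E} (h : MinViol vars K Q) : Q.Nonempty := by
  rw [← card_pos]
  have := h.1
  omega

theorem MinViol.twice {K : Finset V} {Q : Finset E} (h : MinViol vars K Q) :
    2 * (VS vars Q \ K).card ≤ ∑ e ∈ Q, (vars e \ K).card := by
  have h1 : ∑ e ∈ Q, (vars e \ K).card =
      ∑ v ∈ VS vars Q \ K, (Q.filter fun e => v ∈ vars e).card := by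
    simp only [card_eq_sum_ones, sum_filter]
    rw [sum_comm]
    apply sum_congr rfl
    intro e he
    rw [← sum_filter]
    congr 1
    ext v
    rw [mem_sdiff, mem_filter, mem_sdiff, mem_VS]
    constructor
    · rintro ⟨h2, h3⟩
      exact ⟨⟨⟨e, he, h2⟩, h3⟩, h2⟩
    · rintro ⟨⟨-, h3⟩, h2⟩
      exact ⟨h2, h3⟩
  rw [h1]
  have h2 : ∀ v ∈ VS vars Q \ K, 2 ≤ (Q.filter fun e => v ∈ vars e).card := by
    intro v hv
    have hv1 := hv
    rw [mem_sdiff, mem_VS] at hv1
    obtain ⟨⟨e, he, hve⟩, hvK⟩ := hv1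
    rw [← (h.erase he).1, mem_sdiff, mem_VS] at hv
    obtain ⟨⟨e', he', hve'⟩, -⟩ := hv
    rw [mem_erase] at he'
    have h3 : ({e, e'} : Finset E) ⊆ Q.filter fun e => v ∈ vars e := by
      intro x hx
      rw [mem_insert, mem_singleton] at hx
      rw [mem_filter]
      rcases hx with rfl | rfl
      · exact ⟨he, hve⟩
      · exact ⟨he'.2, hve'⟩
    have h4 := card_le_card h3
    rwa [card_pair he'.1.symm] at h4
  have h3 := card_nsmul_le_sum _ _ _ h2
  rw [smul_eq_mul] at h3
  omega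

/-- The number of incidences with `K` of a minimal violator. -/
theorem MinViol.inc {k : ℕ} (hk2 : 2 ≤ k) (hk : ∀ e, (vars e).card = k) {K : Finset V}
    {Q : Finset E} (h : MinViol vars K Q) :
    ∑ e ∈ Q, (vars e ∩ K).card ≤ (k - 2) * Q.card + 2 := by
  have h1 := h.twice
  obtain ⟨e₀, he₀⟩ := h.nonempty
  have h2 := (h.erase he₀).2
  have h3 : ∑ e ∈ Q, (vars e \ K).card + ∑ e ∈ Q, (vars e ∩ K).card = k * Q.card := by
    rw [← sum_add_distrib]
    have h4 : ∀ e ∈ Q, (vars e \ K).card + (vars e ∩ K).card = k := by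
      intro e _
      rw [card_sdiff_add_card_inter, hk]
    rw [sum_congr rfl h4, sum_const, smul_eq_mul, mul_comm]
  obtain ⟨k', rfl⟩ : ∃ k', k = k' + 2 := ⟨k - 2, by omega⟩
  rw [Nat.add_sub_cancel]
  have h5 : (k' + 2) * Q.card = k' * Q.card + 2 * Q.card := by ring
  omega

theorem card_VS_inter_le {K : Finset V} (Q : Finset E) :
    (VS vars Q ∩ K).card ≤ ∑ e ∈ Q, (vars e ∩ K).card := by
  have h1 : VS vars Q ∩ K ⊆ Q.biUnion fun e => vars e ∩ K := by
    intro v hv
    rw [mem_inter, mem_VS] at hv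
    obtain ⟨⟨e, he, hve⟩, hvK⟩ := hv
    rw [mem_biUnion]
    exact ⟨e, he, mem_inter.2 ⟨hve, hvK⟩⟩
  exact (card_le_card h1).trans card_biUnion_le

/-- The sum over the constraints inside `K ∪ U`. -/
theorem sum_inside {k : ℕ}
    (hwt : ∀ wt : V → ℝ, (∀ v, 0 ≤ wt v) → ∑ e : E, ∏ v ∈ vars e, wt v ≤ (2 * ∑ v, wt v) ^ k)
    (K U : Finset V) (hKU : Disjoint K U) (β : ℝ) (hβ : 0 ≤ β) :
    ∑ e ∈ univ.filter (fun e : E => vars e ⊆ K ∪ U), β ^ (vars e ∩ K).card ≤
      (2 * (β * K.card + U.card)) ^ k := by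
  set wt : V → ℝ := fun v => if v ∈ K then β else if v ∈ U then 1 else 0 with hwtdef
  have hwt0 : ∀ v, 0 ≤ wt v := by
    intro v
    simp only [hwtdef]
    split_ifs
    · exact hβ
    · norm_num
    · exact le_rfl
  have h1 := hwt wt hwt0
  have h2 : ∑ v, wt v = β * K.card + U.card := by
    have h3 : ∀ v, wt v = (if v ∈ K then β else 0) + (if v ∈ U then 1 else 0) := by
      intro v
      simp only [hwtdef]
      by_cases hK : v ∈ K
      · have hU : v ∉ U := fun h => (disjoint_left.1 hKU hK) h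
        simp [hK, hU]
      · simp [hK]
    rw [sum_congr rfl fun v _ => h3 v, sum_add_distrib, sum_ite_mem, sum_ite_mem, univ_inter,
      univ_inter, sum_const, sum_const, nsmul_eq_mul, nsmul_eq_mul]
    ring
  rw [h2] at h1
  refine le_trans ?_ h1
  have h3 : ∀ e ∈ univ.filter (fun e : E => vars e ⊆ K ∪ U), β ^ (vars e ∩ K).card =
      ∏ v ∈ vars e, wt v := by
    intro e he
    rw [mem_filter] at he
    have h4 : ∀ v ∈ vars e, wt v = if v ∈ K then β else 1 := by
      intro v hv
      simp only [hwtdef]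
      split_ifs with h5 h6
      · rfl
      · rfl
      · exact ((mem_union.1 (he.2 hv)).elim h5 h6).elim
    rw [prod_congr rfl h4, prod_ite, prod_const, prod_const_one, mul_one, filter_mem_eq_inter]
  rw [sum_congr rfl h3]
  apply sum_le_sum_of_subset_of_nonneg (filter_subset _ _)
  intro e _ _
  exact prod_nonneg fun v _ => hwt0 v

/-- **The number of minimal violators.** -/
theorem card_minViol [Nonempty V] {k : ℕ} (hk2 : 2 ≤ k) (hk : ∀ e, (vars e).card = k)
    (hwt : ∀ wt : V → ℝ, (∀ v, 0 ≤ wt v) → ∑ e : E, ∏ v ∈ vars e, wt v ≤ (2 * ∑ v, wt v) ^ k)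
    (K : Finset V) (B Λ : ℝ) (hB : 1 ≤ B) (q : ℕ) (hq : 1 ≤ q) (hqΛ : (q : ℝ) ≤ Λ)
    (hKΛ : B * K.card ≤ Λ) :
    ∑ Q ∈ univ.filter (fun Q : Finset E => MinViol vars K Q ∧ Q.card = q),
      B ^ (VS vars Q ∩ K).card ≤
      (Fintype.card V : ℝ) ^ (q - 1) * Λ ^ ((k - 2) * q + 2) * (9 * 4 ^ k) ^ q := by
  have hq0 : (0 : ℝ) < q := by exact_mod_cast hq
  have hΛ0 : 0 < Λ := lt_of_lt_of_le hq0 hqΛ
  obtain ⟨y, hy⟩ : ∃ y : ℝ, y = Λ / q := ⟨_, rfl⟩
  have hy1 : 1 ≤ y := by
    rw [hy, le_div_iff₀ hq0, one_mul]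
    exact hqΛ
  have hy0 : 0 < y := by linarith
  obtain ⟨c, hc⟩ : ∃ c, c = (k - 2) * q + 2 := ⟨_, rfl⟩
  rw [← hc]
  have hf0 : (0 : ℝ) < q.factorial := by exact_mod_cast Nat.factorial_pos q
  have hf1 : (0 : ℝ) < (q - 1).factorial := by exact_mod_cast Nat.factorial_pos (q - 1)
  -- the sum for a given set of free variables
  have hU : ∀ U ∈ powersetCard (q - 1) (univ \ K : Finset V),
      ∑ Q ∈ (powersetCard q (univ.filter fun e : E => vars e ⊆ K ∪ U)).filter
        (fun Q => ∑ e ∈ Q, (vars e ∩ K).card ≤ c), B ^ (∑ e ∈ Q, (vars e ∩ K).card) ≤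
        y ^ c * ((4 * q) ^ (k * q) / q.factorial) := by
    intro U hU
    rw [mem_powersetCard] at hU
    have hdis : Disjoint K U := by
      rw [disjoint_left]
      intro v hv hvU
      exact (mem_sdiff.1 (hU.1 hvU)).2 hv
    have h1 : ∀ Q ∈ (powersetCard q (univ.filter fun e : E => vars e ⊆ K ∪ U)).filter
        (fun Q => ∑ e ∈ Q, (vars e ∩ K).card ≤ c), B ^ (∑ e ∈ Q, (vars e ∩ K).card) ≤
        y ^ c * ∏ e ∈ Q, (B / y) ^ (vars e ∩ K).card := by
      intro Q hQ
      rw [mem_filter] at hQ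
      rw [prod_pow_eq_pow_sum, div_pow, ← mul_div_assoc, le_div_iff₀ (by positivity), mul_comm]
      apply mul_le_mul_of_nonneg_right _ (by positivity)
      exact pow_le_pow_right₀ hy1 hQ.2
    refine (sum_le_sum h1).trans ?_
    rw [← mul_sum]
    apply mul_le_mul_of_nonneg_left _ (by positivity)
    rw [le_div_iff₀ hf0, mul_comm]
    have h2 : ∑ Q ∈ (powersetCard q (univ.filter fun e : E => vars e ⊆ K ∪ U)).filter
        (fun Q => ∑ e ∈ Q, (vars e ∩ K).card ≤ c), ∏ e ∈ Q, (B / y) ^ (vars e ∩ K).card ≤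
        ∑ Q ∈ powersetCard q (univ.filter fun e : E => vars e ⊆ K ∪ U),
          ∏ e ∈ Q, (B / y) ^ (vars e ∩ K).card := by
      apply sum_le_sum_of_subset_of_nonneg (filter_subset _ _)
      intro Q _ _
      exact prod_nonneg fun e _ => by positivity
    refine (mul_le_mul_of_nonneg_left h2 hf0.le).trans ?_
    refine (esymm_le (fun e => (B / y) ^ (vars e ∩ K).card) (fun e => by positivity) _ q).trans ?_
    rw [pow_mul]
    apply pow_le_pow_left₀ (sum_nonneg fun e _ => by positivity)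
    refine (sum_inside hwt K U hdis (B / y) (by positivity)).trans ?_
    apply pow_le_pow_left₀ (by positivity)
    have h3 : B / y * K.card ≤ q := by
      rw [hy, div_div_eq_mul_div, div_mul_eq_mul_div, div_le_iff₀ hΛ0]
      calc B * q * K.card = q * (B * K.card) := by ring
        _ ≤ q * Λ := mul_le_mul_of_nonneg_left hKΛ hq0.le
    have h4 : (U.card : ℝ) ≤ q := by
      have : U.card ≤ q := by omega
      exact_mod_cast this
    linarith
  -- the union over the sets of free variables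
  have h1 : ∑ Q ∈ univ.filter (fun Q : Finset E => MinViol vars K Q ∧ Q.card = q),
      B ^ (VS vars Q ∩ K).card ≤ ∑ U ∈ powersetCard (q - 1) (univ \ K : Finset V),
        ∑ Q ∈ (powersetCard q (univ.filter fun e : E => vars e ⊆ K ∪ U)).filter
        (fun Q => ∑ e ∈ Q, (vars e ∩ K).card ≤ c), B ^ (∑ e ∈ Q, (vars e ∩ K).card) := by
    have h2 : ∀ Q ∈ univ.filter (fun Q : Finset E => MinViol vars K Q ∧ Q.card = q),
        B ^ (VS vars Q ∩ K).card ≤ B ^ (∑ e ∈ Q, (vars e ∩ K).card) :=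
      fun Q _ => pow_le_pow_right₀ hB (card_VS_inter_le Q)
    refine (sum_le_sum h2).trans ?_
    have h3 : univ.filter (fun Q : Finset E => MinViol vars K Q ∧ Q.card = q) ⊆
        (powersetCard (q - 1) (univ \ K : Finset V)).biUnion fun U =>
          (powersetCard q (univ.filter fun e : E => vars e ⊆ K ∪ U)).filter
        (fun Q => ∑ e ∈ Q, (vars e ∩ K).card ≤ c) := by
      intro Q hQ
      rw [mem_filter] at hQ
      obtain ⟨-, hQ1, hQ2⟩ := hQ
      obtain ⟨e₀, he₀⟩ := hQ1.nonempty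
      have h4 := (hQ1.erase he₀).2
      rw [mem_biUnion]
      refine ⟨VS vars Q \ K, ?_, ?_⟩
      · rw [mem_powersetCard]
        exact ⟨sdiff_subset_sdiff (subset_univ _) subset_rfl, by omega⟩
      · rw [mem_filter, mem_powersetCard]
        refine ⟨⟨?_, hQ2⟩, ?_⟩
        · intro e he
          rw [mem_filter]
          refine ⟨mem_univ _, ?_⟩
          intro v hv
          rw [mem_union, mem_sdiff, mem_VS]
          by_cases hvK : v ∈ K
          · exact Or.inl hvK
          · exact Or.inr ⟨⟨e, he, hv⟩, hvK⟩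
        · have := hQ1.inc hk2 hk
          rw [hQ2] at this
          rw [hc]
          exact this
    refine (sum_le_sum_of_subset_of_nonneg h3 fun Q _ _ => by positivity).trans ?_
    exact sum_biUnion_le_sum_sum _ _ (fun Q => B ^ (∑ e ∈ Q, (vars e ∩ K).card))
      fun Q => by positivity
  refine h1.trans ((sum_le_sum hU).trans ?_)
  rw [sum_const, nsmul_eq_mul, card_powersetCard]
  -- the number of sets of free variables
  have h2 : (((univ \ K : Finset V).card.choose (q - 1) : ℕ) : ℝ) ≤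
      (Fintype.card V : ℝ) ^ (q - 1) / (q - 1).factorial := by
    refine (Nat.choose_le_pow_div (α := ℝ) (q - 1) _).trans ?_
    apply div_le_div_of_nonneg_right _ hf1.le
    apply pow_le_pow_left₀ (Nat.cast_nonneg _)
    exact_mod_cast card_le_univ _
  refine (mul_le_mul_of_nonneg_right h2 (by positivity)).trans ?_
  -- arithmetic
  have h3 : y ^ c * (4 * q) ^ (k * q) = Λ ^ c * 4 ^ (k * q) * (q : ℝ) ^ (2 * (q - 1)) := by
    have h4 : k * q = c + 2 * (q - 1) := by
      rw [hc]
      obtain ⟨k', rfl⟩ : ∃ k', k = k' + 2 := ⟨k - 2, by omega⟩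
      obtain ⟨q', rfl⟩ : ∃ q', q = q' + 1 := ⟨q - 1, by omega⟩
      rw [Nat.add_sub_cancel, Nat.add_sub_cancel]
      ring
    have h5 : (q : ℝ) ^ (k * q) = (q : ℝ) ^ c * (q : ℝ) ^ (2 * (q - 1)) := by
      rw [h4, pow_add]
    rw [hy, div_pow, mul_pow, h5]
    field_simp
  have h4 : (q : ℝ) ^ (2 * (q - 1)) ≤ 9 ^ q * (q.factorial * (q - 1).factorial) := by
    have h5 := pow_self_le q
    have h6 : (q.factorial : ℝ) = q * (q - 1).factorial := by
      exact_mod_cast (Nat.mul_factorial_pred (by omega)).symm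
    have h7 : (q : ℝ) * (q : ℝ) ^ (q - 1) = (q : ℝ) ^ q := by
      rw [← pow_succ']
      congr 1
      omega
    have h8 : (q : ℝ) ^ (q - 1) ≤ 3 ^ q * (q - 1).factorial := by
      refine le_of_mul_le_mul_left ?_ hq0
      rw [h7]
      refine h5.trans (le_of_eq ?_)
      rw [h6]
      ring
    have h9 : (1 : ℝ) ≤ q := by exact_mod_cast hq
    have h10 : (q : ℝ) ^ (q - 1) ≤ 3 ^ q * q.factorial := by
      refine h8.trans (mul_le_mul_of_nonneg_left ?_ (by positivity))
      rw [h6]
      nlinarith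
    calc (q : ℝ) ^ (2 * (q - 1)) = (q : ℝ) ^ (q - 1) * (q : ℝ) ^ (q - 1) := by
          rw [← pow_add, two_mul]
      _ ≤ (3 ^ q * q.factorial) * (3 ^ q * (q - 1).factorial) :=
          mul_le_mul h10 h8 (by positivity) (by positivity)
      _ = 9 ^ q * (q.factorial * (q - 1).factorial) := by
          rw [show (9 : ℝ) = 3 * 3 by norm_num, mul_pow]
          ring
  calc (Fintype.card V : ℝ) ^ (q - 1) / (q - 1).factorial *
        (y ^ c * ((4 * q) ^ (k * q) / q.factorial))
      = (Fintype.card V : ℝ) ^ (q - 1) * (y ^ c * (4 * q) ^ (k * q)) /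
          (q.factorial * (q - 1).factorial) := by
        field_simp
    _ = (Fintype.card V : ℝ) ^ (q - 1) * Λ ^ c * 4 ^ (k * q) *
          ((q : ℝ) ^ (2 * (q - 1)) / (q.factorial * (q - 1).factorial)) := by
        rw [h3]
        field_simp
    _ ≤ (Fintype.card V : ℝ) ^ (q - 1) * Λ ^ c * 4 ^ (k * q) * 9 ^ q := by
        apply mul_le_mul_of_nonneg_left _ (by positivity)
        rw [div_le_iff₀ (by positivity)]
        exact h4
    _ = (Fintype.card V : ℝ) ^ (q - 1) * Λ ^ c * (9 * 4 ^ k) ^ q := by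
        rw [mul_pow, ← pow_mul]
        ring

end

end Pool.Agent.T9h16.Rand
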