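import Pool.Agent.T9h16.Rand.Spread
import Pool.Agent.T9h34.G.SpreadMain

/-!
A random consistent set of literals is at least as good for covering consistent sets of literals as
a random set of literals.
-/

set_option autoImplicit false
set_option linter.unusedSectionVars false

namespace Pool.Agent.T9h16.Rand

open Finset
open scoped Classical

/-- Resampling one coordinate. -/
theorem sum_update {V Ω : Type} [Fintype V] [Fintype Ω] (v : V) (F : (V → Ω) → ℝ) :
    ∑ ω : V → Ω, ∑ y : Ω, F (Function.update ω v y) = Fintype.card Ω * ∑ ω : V → Ω, F ω := by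
  have h1 : ∑ ω : V → Ω, ∑ y : Ω, F (Function.update ω v y) =
      ∑ p : (V → Ω) × Ω, F (Function.update p.1 v p.2) := by
    rw [Fintype.sum_prod_type]
  have h2 : (Fintype.card Ω : ℝ) * ∑ ω : V → Ω, F ω = ∑ p : (V → Ω) × Ω, F p.1 := by
    rw [Fintype.sum_prod_type, mul_sum]
    apply sum_congr rfl
    intro ω _
    change (Fintype.card Ω : ℝ) * F ω = ∑ _y : Ω, F ω
    rw [sum_const, card_univ, nsmul_eq_mul]
  rw [h1, h2]
  refine sum_bij' (fun p _ => (Function.update p.1 v p.2, p.1 v))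
    (fun p _ => (Function.update p.1 v p.2, p.1 v)) (fun _ _ => mem_univ _)
    (fun _ _ => mem_univ _) ?_ ?_ (fun _ _ => rfl)
  · rintro ⟨ω, y⟩ _
    simp
  · rintro ⟨ω, y⟩ _
    simp

section
variable {V Ω₁ Ω₂ : Type} [Fintype V] [Fintype Ω₁] [Fintype Ω₂] [Nonempty Ω₁] [Nonempty Ω₂]

/-- The mixture of two choices. -/
noncomputable def mix (c₁ : Ω₁ → Finset Bool) (c₂ : Ω₂ → Finset Bool) (S : Finset V)
    (ω₁ : V → Ω₁) (ω₂ : V → Ω₂) (v : V) : Finset Bool :=
  if v ∈ S then c₂ (ω₂ v) else c₁ (ω₁ v)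

/-- The one-variable inequality. -/
theorem one_var {c₁ : Ω₁ → Finset Bool} {c₂ : Ω₂ → Finset Bool} (h2 : ∀ y, c₂ y ≠ univ)
    (hp : ∀ b, ((univ.filter fun y => b ∈ c₁ y).card : ℝ) * Fintype.card Ω₂ ≤
      ((univ.filter fun y => b ∈ c₂ y).card : ℝ) * Fintype.card Ω₁)
    (h : Finset Bool → ℝ) (hanti : ∀ b, h {b} ≤ h ∅)
    (hgood : h {true} + h {false} ≤ h univ + h ∅) :
    (∑ y, h (c₂ y)) * Fintype.card Ω₁ ≤ (∑ y, h (c₁ y)) * Fintype.card Ω₂ := by
  have hb : ∀ t : Finset Bool, t = ∅ ∨ t = {true} ∨ t = {false} ∨ t = univ := by decide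
  -- linear expression
  set ℓ : Finset Bool → ℝ := fun t => h ∅ + (if true ∈ t then h {true} - h ∅ else 0) +
    (if false ∈ t then h {false} - h ∅ else 0) with hℓ
  have hℓ1 : ∀ t, ℓ t ≤ h t := by
    intro t
    rcases hb t with rfl | rfl | rfl | rfl
    · simp [hℓ]
    · simp [hℓ]
    · simp [hℓ]
    · simp only [hℓ, mem_univ, if_true]
      linarith
  have hℓ2 : ∀ t, t ≠ univ → ℓ t = h t := by
    intro t ht
    rcases hb t with rfl | rfl | rfl | rfl
    · simp [hℓ]
    · simp [hℓ]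
    · simp [hℓ]
    · exact (ht rfl).elim
  have hsum : ∀ {Ω : Type} [Fintype Ω] (c : Ω → Finset Bool), ∑ y, ℓ (c y) =
      Fintype.card Ω * h ∅ + ((univ.filter fun y => true ∈ c y).card : ℝ) * (h {true} - h ∅) +
      ((univ.filter fun y => false ∈ c y).card : ℝ) * (h {false} - h ∅) := by
    intro Ω _ c
    simp only [hℓ]
    rw [sum_add_distrib, sum_add_distrib, sum_const, card_univ, nsmul_eq_mul, ← sum_filter,
      ← sum_filter, sum_const, sum_const, nsmul_eq_mul, nsmul_eq_mul]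
  have e2 : ∑ y, h (c₂ y) = ∑ y, ℓ (c₂ y) := sum_congr rfl fun y _ => (hℓ2 _ (h2 y)).symm
  have e1 : ∑ y, ℓ (c₁ y) ≤ ∑ y, h (c₁ y) := sum_le_sum fun y _ => hℓ1 _
  rw [e2]
  refine le_trans ?_ (mul_le_mul_of_nonneg_right e1 (Nat.cast_nonneg _))
  rw [hsum c₁, hsum c₂]
  have h3 := mul_le_mul_of_nonneg_right (hp true) (sub_nonneg.2 (hanti true))
  have h4 := mul_le_mul_of_nonneg_right (hp false) (sub_nonneg.2 (hanti false))
  nlinarith

/-- **Comparison.** -/
theorem hybrid {c₁ : Ω₁ → Finset Bool} {c₂ : Ω₂ → Finset Bool} (h2 : ∀ y, c₂ y ≠ univ)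
    (hp : ∀ b, ((univ.filter fun y => b ∈ c₁ y).card : ℝ) * Fintype.card Ω₂ ≤
      ((univ.filter fun y => b ∈ c₂ y).card : ℝ) * Fintype.card Ω₁)
    (f : (V → Finset Bool) → ℝ)
    (hanti : ∀ a v b, f (Function.update a v {b}) ≤ f (Function.update a v ∅))
    (hgood : ∀ a v, f (Function.update a v {true}) + f (Function.update a v {false}) ≤
      f (Function.update a v univ) + f (Function.update a v ∅)) :
    (∑ ω₂ : V → Ω₂, f (fun v => c₂ (ω₂ v))) / Fintype.card (V → Ω₂) ≤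
      (∑ ω₁ : V → Ω₁, f (fun v => c₁ (ω₁ v))) / Fintype.card (V → Ω₁) := by
  have hn1 : (0 : ℝ) < Fintype.card Ω₁ := by exact_mod_cast Fintype.card_pos
  have hn2 : (0 : ℝ) < Fintype.card Ω₂ := by exact_mod_cast Fintype.card_pos
  have hN1 : (0 : ℝ) < Fintype.card (V → Ω₁) := by exact_mod_cast Fintype.card_pos
  have hN2 : (0 : ℝ) < Fintype.card (V → Ω₂) := by exact_mod_cast Fintype.card_pos
  set E : Finset V → ℝ := fun S => ∑ ω₁ : V → Ω₁, ∑ ω₂ : V → Ω₂, f (mix c₁ c₂ S ω₁ ω₂) with hE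
  have hstep : ∀ (v : V) (S : Finset V), v ∉ S → E (insert v S) ≤ E S := by
    intro v S hv
    have hA : (Fintype.card Ω₁ : ℝ) * E S = ∑ ω₁ : V → Ω₁, ∑ ω₂ : V → Ω₂, ∑ y : Ω₁,
        f (Function.update (mix c₁ c₂ S ω₁ ω₂) v (c₁ y)) := by
      rw [hE]
      simp only
      rw [← sum_update v (fun ω₁ : V → Ω₁ => ∑ ω₂ : V → Ω₂, f (mix c₁ c₂ S ω₁ ω₂))]
      apply sum_congr rfl
      intro ω₁ _
      rw [sum_comm]
      apply sum_congr rfl
      intro ω₂ _
      apply sum_congr rfl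
      intro y _
      congr 1
      funext u
      by_cases hu : u = v
      · subst hu
        rw [Function.update_self]
        simp [mix, hv]
      · rw [Function.update_of_ne hu]
        simp [mix, hu]
    have hB : (Fintype.card Ω₂ : ℝ) * E (insert v S) = ∑ ω₁ : V → Ω₁, ∑ ω₂ : V → Ω₂, ∑ y : Ω₂,
        f (Function.update (mix c₁ c₂ S ω₁ ω₂) v (c₂ y)) := by
      rw [hE]
      simp only
      rw [mul_sum]
      apply sum_congr rfl
      intro ω₁ _
      rw [← sum_update v (fun ω₂ : V → Ω₂ => f (mix c₁ c₂ (insert v S) ω₁ ω₂))]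
      apply sum_congr rfl
      intro ω₂ _
      apply sum_congr rfl
      intro y _
      congr 1
      funext u
      by_cases hu : u = v
      · subst hu
        rw [Function.update_self]
        simp [mix]
      · rw [Function.update_of_ne hu]
        simp [mix, hu]
    have hC : ((Fintype.card Ω₂ : ℝ) * E (insert v S)) * Fintype.card Ω₁ ≤
        ((Fintype.card Ω₁ : ℝ) * E S) * Fintype.card Ω₂ := by
      rw [hA, hB, sum_mul, sum_mul]
      apply sum_le_sum
      intro ω₁ _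
      rw [sum_mul, sum_mul]
      apply sum_le_sum
      intro ω₂ _
      exact one_var h2 hp (fun t => f (Function.update (mix c₁ c₂ S ω₁ ω₂) v t))
        (fun b => hanti _ _ _) (hgood _ _)
    have h3 : (0 : ℝ) < Fintype.card Ω₂ * Fintype.card Ω₁ := mul_pos hn2 hn1
    refine le_of_mul_le_mul_left ?_ h3
    linarith
  have hall : ∀ S : Finset V, E S ≤ E ∅ := by
    intro S
    induction S using Finset.induction_on with
    | empty => exact le_rfl
    | insert v S hv ih => exact (hstep v S hv).trans ih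
  have hu := hall univ
  have e1 : E univ = Fintype.card (V → Ω₁) * ∑ ω₂ : V → Ω₂, f (fun v => c₂ (ω₂ v)) := by
    rw [hE]
    simp only
    have : ∀ ω₁ : V → Ω₁, ∑ ω₂ : V → Ω₂, f (mix c₁ c₂ univ ω₁ ω₂) =
        ∑ ω₂ : V → Ω₂, f (fun v => c₂ (ω₂ v)) := by
      intro ω₁
      apply sum_congr rfl
      intro ω₂ _
      congr 1
      funext v
      simp [mix]
    rw [sum_congr rfl fun ω₁ _ => this ω₁, sum_const, card_univ, nsmul_eq_mul]
  have e2 : E ∅ = Fintype.card (V → Ω₂) * ∑ ω₁ : V → Ω₁, f (fun v => c₁ (ω₁ v)) := by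
    rw [hE]
    simp only
    rw [mul_sum]
    apply sum_congr rfl
    intro ω₁ _
    have : ∀ ω₂ : V → Ω₂, f (mix c₁ c₂ ∅ ω₁ ω₂) = f (fun v => c₁ (ω₁ v)) := by
      intro ω₂
      congr 1
    rw [sum_congr rfl fun ω₂ _ => this ω₂, sum_const, card_univ, nsmul_eq_mul]
  rw [e1, e2] at hu
  rw [div_le_div_iff₀ hN2 hN1]
  linarith

end

end Pool.Agent.T9h16.Rand
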