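import Pool.Agent.T9h16.Rand2.Main2
import Pool.Agent.T9h16.Rand.Build
import Pool.Agent.T9h16.Neg.Main

/-!
De Morgan circuits that use few negated facts.
-/

set_option autoImplicit false
set_option linter.unusedSectionVars false

namespace Pool.Agent.T9h16.Rand

open Finset
open scoped Classical
open Pool.Agent.T9h16 (Leaf Avail IsSLP)
open Pool.Agent.T9h16

variable {Λ : Type}

/-- The function computed on a wire. -/
def wireF (σ : Λ → Bool → Set Λ → Prop) (fs : List (Set Λ → Prop)) : Neg.Wire Λ → Set Λ → Prop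
  | .lit i b => σ i b
  | .const b => fun _ => b = true
  | .gate k => fs.getD k fun _ => False

/-- The function computed by a gate. -/
def gateF (σ : Λ → Bool → Set Λ → Prop) (fs : List (Set Λ → Prop)) (g : Neg.Gate Λ) :
    Set Λ → Prop := fun F =>
  if g.isAnd then wireF σ fs g.left F ∧ wireF σ fs g.right F
  else wireF σ fs g.left F ∨ wireF σ fs g.right F

/-- The functions computed by the gates. -/
def runF (σ : Λ → Bool → Set Λ → Prop) : List (Neg.Gate Λ) → List (Set Λ → Prop) →
    List (Set Λ → Prop)
  | [], fs => fs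
  | g :: gs, fs => runF σ gs (fs ++ [gateF σ fs g])

theorem wireF_value (σ : Λ → Bool → Set Λ → Prop) (fs : List (Set Λ → Prop)) (F : Set Λ)
    (a : Neg.Wire Λ) :
    wireF σ fs a F = a.value (fun i b => σ i b F) (fs.map fun f => f F) := by
  cases a with
  | lit i b => rfl
  | const b => rfl
  | gate k =>
    simp only [wireF, Neg.Wire.value, List.getD_eq_getElem?_getD, List.getElem?_map]
    cases fs[k]? <;> rfl

theorem gateF_value (σ : Λ → Bool → Set Λ → Prop) (fs : List (Set Λ → Prop)) (F : Set Λ)
    (g : Neg.Gate Λ) :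
    gateF σ fs g F = g.value (fun i b => σ i b F) (fs.map fun f => f F) := by
  unfold gateF Neg.Gate.value
  rw [wireF_value, wireF_value]

theorem runF_value (σ : Λ → Bool → Set Λ → Prop) (F : Set Λ) (gs : List (Neg.Gate Λ))
    (fs : List (Set Λ → Prop)) :
    (runF σ gs fs).map (fun f => f F) =
      Neg.run (fun i b => σ i b F) gs (fs.map fun f => f F) := by
  induction gs generalizing fs with
  | nil => rfl
  | cons g gs ih =>
    simp only [runF, Neg.run]
    rw [ih, List.map_append, List.map_singleton, gateF_value]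

theorem comp_run (σ : Λ → Bool → Set Λ → Prop) (hσ : ∀ i b, Leaf (σ i b))
    (gs : List (Neg.Gate Λ)) (fs : List (Set Λ → Prop)) (s : ℕ)
    (h : Comp s ({f | f ∈ fs} ∪ {p : Set Λ → Prop | Leaf p})) :
    Comp (s + gs.length) ({f | f ∈ runF σ gs fs} ∪ {p : Set Λ → Prop | Leaf p}) := by
  induction gs generalizing fs s with
  | nil => exact h
  | cons g gs ih =>
    have hmem : ∀ a : Neg.Wire Λ,
        wireF σ fs a ∈ {f | f ∈ fs} ∪ {p : Set Λ → Prop | Leaf p} := by
      intro a
      cases a with
      | lit i b => exact Or.inr (hσ i b)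
      | const b => exact Or.inr (Or.inr ⟨b = true, fun z => Iff.rfl⟩)
      | gate k =>
        simp only [wireF]
        rcases lt_or_ge k fs.length with hk | hk
        · rw [List.getD_eq_getElem _ _ hk]
          exact Or.inl (List.getElem_mem hk)
        · rw [List.getD_eq_default _ _ hk]
          exact Or.inr (Or.inr ⟨False, fun z => Iff.rfl⟩)
    have h1 := h.gate (f := gateF σ fs g) (hmem g.left) (hmem g.right) (by
      by_cases hg : g.isAnd
      · left
        intro z
        simp [gateF, hg]
      · right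
        intro z
        simp [gateF, hg])
    have h2 := ih (fs ++ [gateF σ fs g]) (s + 1) (h1.mono le_rfl (by
      rintro f (hf | hf)
      · rw [Set.mem_ofPred_eq, List.mem_append, List.mem_singleton] at hf
        rcases hf with hf | rfl
        · exact Or.inr (Or.inl hf)
        · exact Or.inl rfl
      · exact Or.inr (Or.inr hf)))
    refine h2.mono ?_ subset_rfl
    rw [List.length_cons]
    omega

/-- A de Morgan circuit whose literals are replaced by inputs and constants. -/
theorem exists_mono_of (C : Neg.Circuit Λ) (σ : Λ → Bool → Set Λ → Prop)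
    (hσ : ∀ i b, Leaf (σ i b)) :
    ∃ D : MonoCircuit Λ, D.size ≤ C.size ∧ ∀ F, Accepts D F ↔ C.eval (fun i b => σ i b F) := by
  have h1 := comp_run σ hσ C.gates [] 0 ((comp_zero.leaves (𝒢 := {p : Set Λ → Prop | Leaf p})
    fun f hf => hf).mono le_rfl (by simp))
  have hmem : wireF σ (runF σ C.gates []) C.output ∈
      {f | f ∈ runF σ C.gates []} ∪ {p : Set Λ → Prop | Leaf p} := by
    cases C.output with
    | lit i b => exact Or.inr (hσ i b)
    | const b => exact Or.inr (Or.inr ⟨b = true, fun z => Iff.rfl⟩)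
    | gate k =>
      simp only [wireF]
      rcases lt_or_ge k (runF σ C.gates []).length with hk | hk
      · rw [List.getD_eq_getElem _ _ hk]
        exact Or.inl (List.getElem_mem hk)
      · rw [List.getD_eq_default _ _ hk]
        exact Or.inr (Or.inr ⟨False, fun z => Iff.rfl⟩)
  obtain ⟨D, hD, hacc⟩ := h1.circuit hmem
  refine ⟨D, hD.trans (by rw [zero_add]; exact le_rfl), fun F => ?_⟩
  rw [hacc, wireF_value, runF_value]
  exact Iff.rfl

/-- The monotone circuit for a set of negated facts. -/
theorem exists_mono_using (C : Neg.Circuit Λ) (Q : Set Λ) :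
    ∃ D : MonoCircuit Λ, D.size ≤ C.size ∧
      ∀ F, Accepts D F ↔ C.AcceptsUsing (F \ Q) Q := by
  obtain ⟨D, hD, hacc⟩ := exists_mono_of C
    (fun i b F => if b = true then i ∈ F ∧ i ∉ Q else i ∈ Q) (by
      intro i b
      cases b with
      | true =>
        by_cases hi : i ∈ Q
        · right
          exact ⟨False, fun z => by simp [hi]⟩
        · left
          exact ⟨i, fun z => by simp [hi]⟩
      | false =>
        right
        exact ⟨i ∈ Q, fun z => by simp⟩)
  refine ⟨D, hD, fun F => ?_⟩
  rw [hacc]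
  unfold Neg.Circuit.AcceptsUsing
  have h1 : (fun (i : Λ) (b : Bool) => if b = true then i ∈ F ∧ i ∉ Q else i ∈ Q) =
      fun i b => if b = true then i ∈ F \ Q else i ∉ F \ Q ∧ i ∈ Q := by
    funext i b
    cases b with
    | true => simp
    | false =>
      simp only [Bool.false_eq_true, if_false, Set.mem_sdiff, eq_iff_iff]
      tauto
  rw [h1]

theorem acceptsUsing_sdiff (C : Neg.Circuit Λ) (x Q : Set Λ) :
    C.AcceptsUsing x (Q \ x) ↔ C.AcceptsUsing x Q := by
  unfold Neg.Circuit.AcceptsUsing
  have h1 : (fun (i : Λ) (b : Bool) => if b = true then i ∈ x else i ∉ x ∧ i ∈ Q \ x) =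
      fun i b => if b = true then i ∈ x else i ∉ x ∧ i ∈ Q := by
    funext i b
    cases b with
    | true => simp
    | false =>
      simp only [Bool.false_eq_true, if_false, Set.mem_sdiff, eq_iff_iff]
      tauto
  rw [h1]

/-- The lower bound for de Morgan circuits and the negated facts they use. -/
theorem facts {K : ℕ} (hK : 100000000 ≤ K) {k n m : ℕ} (hk : 2 ≤ k) {s q r ℓ Y : ℕ}
    (hℓ : ℓ = Nat.log 2 (n + s + q * (Nat.card (Clause n k) + 1) ^ r) + 1)
    (hY : Y = k ^ 2 * ℓ ^ 2 * (Nat.log 2 n + 1) * (Nat.log 2 ℓ + 1) ^ 2)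
    (hm : m * ((K * k) ^ k * (Y ^ (k - 2) * (n + Y ^ 2))) ≤ n ^ k)
    (U : Type) [Fintype U] (C : U → Neg.Circuit (Clause n k)) (hU : Fintype.card U ≤ q)
    (hs : ∀ u, (C u).size ≤ s) (hC : ∀ u F, Satisfiable F → ¬ (C u).Accepts F) :
    {φ : Fin m → Clause n k | ∃ u, ∃ Q : Set (Clause n k), Q.ncard ≤ r ∧
      (C u).AcceptsUsing (Set.range φ) Q}.ncard * n ≤ Nat.card (Fin m → Clause n k) := by
  choose D hD hacc using fun (p : U × {Q : Finset (Clause n k) // Q.card ≤ r}) =>
    exists_mono_using (C p.1) (p.2.1 : Set (Clause n k))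
  have hcard : Fintype.card (U × {Q : Finset (Clause n k) // Q.card ≤ r}) ≤
      q * (Nat.card (Clause n k) + 1) ^ r := by
    rw [Fintype.card_prod, Nat.card_eq_fintype_card]
    exact Nat.mul_le_mul hU (Neg.card_small (Clause n k) r)
  have h := (lower2 hK hk).2 n m s (q * (Nat.card (Clause n k) + 1) ^ r) ℓ Y hℓ hY hm
    (U × {Q : Finset (Clause n k) // Q.card ≤ r}) D hcard
    (fun p => (hD p).trans (hs p.1)) (fun p => by
      have h0 : {x : Fin n → Bool | Accepts (D p) {c | Sat x c}} = ∅ := by
        rw [Set.eq_empty_iff_forall_notMem]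
        intro x hx
        rw [Set.mem_ofPred_eq, hacc] at hx
        refine hC p.1 ({c | Sat x c} \ (p.2.1 : Set (Clause n k))) ⟨x, fun c hc => hc.1⟩ ?_
        refine Neg.Circuit.mono ?_ (C p.1) hx
        intro i b
        cases b with
        | true => exact fun h => h
        | false =>
          simp only [Bool.false_eq_true, if_false]
          exact fun h => ⟨h.1, Set.mem_univ _⟩
      rw [h0, Set.ncard_empty, mul_zero]
      exact Nat.zero_le _)
  rw [mul_comm]
  refine le_trans (Nat.mul_le_mul_left _ (Set.ncard_le_ncard ?_ (Set.toFinite _))) h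
  rintro φ ⟨u, Q, hQ, hφ⟩
  have hfin : (Q \ Set.range φ).Finite := Set.toFinite _
  refine ⟨(u, ⟨hfin.toFinset, ?_⟩), ?_⟩
  · rw [← Set.ncard_eq_toFinset_card _ hfin]
    exact (Set.ncard_le_ncard Set.sdiff_subset (Set.toFinite _)).trans hQ
  · rw [hacc]
    simp only [Set.Finite.coe_toFinset]
    have h1 : Set.range φ \ (Q \ Set.range φ) = Set.range φ := by
      ext c
      simp only [Set.mem_sdiff]
      tauto
    rw [h1, acceptsUsing_sdiff]
    exact hφ

end Pool.Agent.T9h16.Rand
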