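import Pool.Agent.T9h16.Rand2.Facts
import Pool.Agent.T9h16.Rand.Final2

/-!
The upper bound for de Morgan circuits that use no negated facts.
-/

set_option autoImplicit false
set_option linter.unusedSectionVars false

namespace Pool.Agent.T9h16.Rand

open scoped Classical
open Pool.Agent.T9h16
open Pool.Agent

variable {Λ : Type}

/-- Translation of wires. -/
def toW : LN.Wire Λ → Neg.Wire Λ
  | .input i => .lit i true
  | .const b => .const b
  | .gate j => .gate j

/-- Translation of gates (AND and OR). -/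
def toG : LN.Gate Λ → Neg.Gate Λ
  | .and a b => ⟨true, toW a, toW b⟩
  | .or a b => ⟨false, toW a, toW b⟩
  | .not a => ⟨true, toW a, toW a⟩

/-- The values of the literals. -/
def litv (F Q : Set Λ) (i : Λ) (b : Bool) : Prop := if b then i ∈ F else i ∉ F ∧ i ∈ Q

theorem toW_value (F Q : Set Λ) (vals : List Bool) (a : LN.Wire Λ) :
    (toW a).value (litv F Q) (vals.map fun b => (b = true : Prop)) ↔
      a.eval (fun c => decide (c ∈ F)) vals = true := by
  cases a with
  | input i => simp [toW, Neg.Wire.value, LN.Wire.eval, litv]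
  | const b => simp [toW, Neg.Wire.value, LN.Wire.eval]
  | gate j =>
    simp only [toW, Neg.Wire.value, LN.Wire.eval, List.getD_eq_getElem?_getD, List.getElem?_map]
    cases vals[j]? <;> simp

theorem toG_value (F Q : Set Λ) (vals : List Bool) (g : LN.Gate Λ) (hg : g.isNot = false) :
    (toG g).value (litv F Q) (vals.map fun b => (b = true : Prop)) ↔
      g.eval (fun c => decide (c ∈ F)) vals = true := by
  cases g with
  | and a b => simp [toG, Neg.Gate.value, LN.Gate.eval, toW_value]
  | or a b => simp [toG, Neg.Gate.value, LN.Gate.eval, toW_value]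
  | not a => simp [LN.Gate.isNot] at hg

theorem run_toG (F Q : Set Λ) (gs : List (LN.Gate Λ)) (hgs : ∀ g ∈ gs, g.isNot = false)
    (vals : List Bool) :
    Neg.run (litv F Q) (gs.map toG) (vals.map fun b => (b = true : Prop)) =
      (gs.foldl (fun vals g => vals ++ [g.eval (fun c => decide (c ∈ F)) vals]) vals).map
        fun b => (b = true : Prop) := by
  induction gs generalizing vals with
  | nil => rfl
  | cons g gs ih =>
    rw [List.map_cons, List.foldl_cons, ← ih (fun g' hg' => hgs g' (List.mem_cons_of_mem _ hg')),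
      Neg.run, List.map_append, List.map_singleton]
    congr 3
    exact propext (toG_value F Q vals g (hgs g List.mem_cons_self))

theorem exists_demorgan (C : LN.Circuit Λ) (hC : C.nots = 0) :
    ∃ C' : Neg.Circuit Λ, C'.size = C.size ∧
      ∀ F Q, C'.AcceptsUsing F Q ↔ Acc' C F := by
  have hgs : ∀ g ∈ C.gates, g.isNot = false := by
    intro g hg
    have h1 : C.gates.countP LN.Gate.isNot = 0 := hC
    rw [List.countP_eq_zero] at h1
    have := h1 g hg
    simpa using this
  refine ⟨⟨C.gates.map toG, toW C.out⟩, ?_, ?_⟩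
  · simp [Neg.Circuit.size, LN.Circuit.size]
  · intro F Q
    have h1 := run_toG F Q C.gates hgs []
    rw [List.map_nil] at h1
    change (toW C.out).value (litv F Q) (Neg.run (litv F Q) (C.gates.map toG) []) ↔ _
    rw [h1, toW_value]
    exact Iff.rfl

variable {k n m : ℕ}

theorem upper3 {K : ℕ} (hK : 128 ≤ K) (hk : 2 ≤ k) {t : ℕ} (hn : 4 ≤ n) (hkt : k - 2 ≤ t)
    (ht : 2 * t ≤ n) (h : (K * k) ^ (2 * k) * n ^ (k - 1) ≤ m * t ^ (k - 2)) :
    ∃ C : Neg.Circuit (Clause n k), C.size ≤ 2 ^ t * (n + 1) ^ (K * k) ∧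
      (∀ F : Set (Clause n k), Satisfiable F → ¬ C.Accepts F) ∧
      {φ : Fin m → Clause n k | ¬ C.AcceptsUsing (Set.range φ) ∅}.ncard * 2 ^ n ≤
        Nat.card (Fin m → Clause n k) := by
  obtain ⟨C, h1, h2, h3, h4⟩ := part3 hK hk hn hkt ht h
  obtain ⟨C', h5, h6⟩ := exists_demorgan C h1
  refine ⟨C', h5.le.trans h2, fun F hF hacc => h3 F hF ((h6 F Set.univ).1 hacc), ?_⟩
  simpa only [h6] using h4

end Pool.Agent.T9h16.Rand
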