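import Pool.Agent.T9h16.Rand2.Gen

/-!
Uniformly random sets with `m` elements.
-/

set_option autoImplicit false
set_option linter.unusedSectionVars false

namespace Pool.Agent.T9h16.Rand

open Finset
open scoped Classical

theorem choose_ratio (M m j : ℕ) (hj : j ≤ m) (hm : m ≤ M) :
    (M - j).choose (m - j) * M ^ j ≤ M.choose m * m ^ j := by
  induction j with
  | zero => simp
  | succ j ih =>
    have ih' := ih (by omega)
    obtain ⟨a, ha⟩ : ∃ a, a = M - (j + 1) := ⟨_, rfl⟩
    obtain ⟨b, hb⟩ : ∃ b, b = m - (j + 1) := ⟨_, rfl⟩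
    have ha1 : M - j = a + 1 := by omega
    have hb1 : m - j = b + 1 := by omega
    rw [ha1, hb1] at ih'
    rw [← ha, ← hb]
    have h1 : (a + 1) * a.choose b = (a + 1).choose (b + 1) * (b + 1) :=
      Nat.add_one_mul_choose_eq a b
    have h2 : (b + 1) * M ≤ m * (a + 1) := by
      have e1 : m = b + 1 + j := by omega
      have e2 : M = a + 1 + j := by omega
      have e3 : b ≤ a := by omega
      rw [e1, e2]
      nlinarith
    have h3 : a.choose b * M ≤ (a + 1).choose (b + 1) * m := by
      have h4 : (a + 1) * (a.choose b * M) ≤ (a + 1) * ((a + 1).choose (b + 1) * m) := by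
        calc (a + 1) * (a.choose b * M) = ((a + 1) * a.choose b) * M := by ring
          _ = (a + 1).choose (b + 1) * ((b + 1) * M) := by rw [h1]; ring
          _ ≤ (a + 1).choose (b + 1) * (m * (a + 1)) := Nat.mul_le_mul_left _ h2
          _ = _ := by ring
      exact Nat.le_of_mul_le_mul_left h4 (Nat.succ_pos a)
    calc a.choose b * M ^ (j + 1) = (a.choose b * M) * M ^ j := by ring
      _ ≤ ((a + 1).choose (b + 1) * m) * M ^ j := Nat.mul_le_mul_right _ h3
      _ = ((a + 1).choose (b + 1) * M ^ j) * m := by ring
      _ ≤ (M.choose m * m ^ j) * m := Nat.mul_le_mul_right _ ih'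
      _ = M.choose m * m ^ (j + 1) := by ring

section
variable {E : Type} [Fintype E]

/-- The sets with `m` elements. -/
abbrev Sub (E : Type) (m : ℕ) : Type := {F : Finset E // F.card = m}

theorem card_Sub (m : ℕ) : Fintype.card (Sub E m) = (Fintype.card E).choose m := by
  have h1 : (powersetCard m (univ : Finset E)).card = (Fintype.card E).choose m := by
    rw [card_powersetCard, card_univ]
  rw [← h1, ← Fintype.card_coe]
  apply Fintype.card_congr
  exact Equiv.subtypeEquivRight fun F => by simp [mem_powersetCard]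

theorem few_Sub (m : ℕ) (hm : m ≤ Fintype.card E) (hE : 0 < Fintype.card E) :
    Few (fun ω : Sub E m => (ω.1 : Set E)) ((m : ℝ) / Fintype.card E) := by
  intro Z
  suffices key : ((univ.filter fun ω : Sub E m => ∀ e ∈ Z, e ∈ (ω.1 : Set E)).card : ℝ) ≤
      Fintype.card (Sub E m) * ((m : ℝ) / Fintype.card E) ^ Z.card by
    refine le_trans (le_of_eq ?_) key
    apply congrArg
    apply congrArg
    ext ω
    simp only [mem_filter]
  have hMR : (0 : ℝ) < Fintype.card E := by exact_mod_cast hE
  rw [div_pow, ← mul_div_assoc, le_div_iff₀ (by positivity)]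
  rcases lt_or_ge m Z.card with hZ | hZ
  · have h0 : (univ.filter fun ω : Sub E m => ∀ e ∈ Z, e ∈ (ω.1 : Set E)) = ∅ := by
      rw [filter_eq_empty_iff]
      rintro ⟨F, hF⟩ - h
      have h1 : Z ⊆ F := fun e he => mem_coe.1 (h e he)
      have := card_le_card h1
      omega
    rw [h0, card_empty, Nat.cast_zero, zero_mul]
    positivity
  · have h1 : (univ.filter fun ω : Sub E m => ∀ e ∈ Z, e ∈ (ω.1 : Set E)).card ≤
        (Fintype.card E - Z.card).choose (m - Z.card) := by
      have h2 : (powersetCard (m - Z.card) (univ \ Z : Finset E)).card =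
          (Fintype.card E - Z.card).choose (m - Z.card) := by
        rw [card_powersetCard, card_sdiff_of_subset (subset_univ _), card_univ]
      rw [← h2]
      apply card_le_card_of_injOn (fun ω => ω.1 \ Z)
      · rintro ⟨F, hF⟩ hω
        rw [mem_coe, mem_filter] at hω
        have h3 : Z ⊆ F := fun e he => mem_coe.1 (hω.2 e he)
        rw [mem_coe, mem_powersetCard]
        refine ⟨sdiff_subset_sdiff (subset_univ _) subset_rfl, ?_⟩
        rw [card_sdiff_of_subset h3, hF]
      · rintro ⟨F, hF⟩ hω ⟨F', hF'⟩ hω' h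
        rw [mem_coe, mem_filter] at hω hω'
        have h3 : Z ⊆ F := fun e he => mem_coe.1 (hω.2 e he)
        have h4 : Z ⊆ F' := fun e he => mem_coe.1 (hω'.2 e he)
        apply Subtype.ext
        simp only at h ⊢
        rw [← sdiff_union_of_subset h3, ← sdiff_union_of_subset h4, h]
    have h2 := (Nat.mul_le_mul_right (Fintype.card E ^ Z.card) h1).trans
      (choose_ratio _ m Z.card hZ hm)
    rw [← card_Sub] at h2
    exact_mod_cast h2

/-- A set of `m` random elements is contained in a random set with `m` elements. -/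
theorem seq_le_Sub (m : ℕ) (hm : m ≤ Fintype.card E) (p : Set E → Prop)
    (hp : ∀ F G : Set E, F ⊆ G → p F → p G) :
    (univ.filter fun φ : Fin m → E => p (Set.range φ)).card * Fintype.card (Sub E m) ≤
      (univ.filter fun ω : Sub E m => p (ω.1 : Set E)).card * Fintype.card (Fin m → E) := by
  -- the number of sets with `m` elements over the range
  have hcount : ∀ R : Finset E, R.card ≤ m →
      (univ.filter fun ω : Sub E m => R ⊆ ω.1).card =
        (Fintype.card E - R.card).choose (m - R.card) := by
    intro R hR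
    have h2 : (powersetCard (m - R.card) (univ \ R : Finset E)).card =
        (Fintype.card E - R.card).choose (m - R.card) := by
      rw [card_powersetCard, card_sdiff_of_subset (subset_univ _), card_univ]
    rw [← h2]
    apply card_bij (fun ω _ => ω.1 \ R)
    · rintro ⟨F, hF⟩ hω
      rw [mem_filter] at hω
      rw [mem_powersetCard]
      refine ⟨sdiff_subset_sdiff (subset_univ _) subset_rfl, ?_⟩
      rw [card_sdiff_of_subset hω.2, hF]
    · rintro ⟨F, hF⟩ hω ⟨F', hF'⟩ hω' h
      rw [mem_filter] at hω hω'
      have h3 : R ⊆ F := hω.2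
      have h4 : R ⊆ F' := hω'.2
      apply Subtype.ext
      simp only at h ⊢
      rw [← sdiff_union_of_subset h3, ← sdiff_union_of_subset h4, h]
    · intro G hG
      rw [mem_powersetCard] at hG
      have hdis : Disjoint G R := by
        rw [disjoint_left]
        intro e he heR
        exact (mem_sdiff.1 (hG.1 he)).2 heR
      refine ⟨⟨G ∪ R, ?_⟩, ?_, ?_⟩
      · rw [card_union_of_disjoint hdis, hG.2]
        omega
      · rw [mem_filter]
        exact ⟨mem_univ _, subset_union_right⟩
      · simp only
        rw [union_sdiff_right]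
        exact sdiff_eq_self_of_disjoint hdis
  set c : ℕ → ℝ := fun j => ((Fintype.card E - j).choose (m - j) : ℝ) with hc
  have hc0 : ∀ j ≤ m, 0 < c j := by
    intro j hj
    simp only [hc]
    exact_mod_cast Nat.choose_pos (by omega)
  -- the weights
  set W : (Fin m → E) → Sub E m → ℝ := fun φ ω =>
    if univ.image φ ⊆ ω.1 then 1 / c (univ.image φ).card else 0 with hW
  have hW0 : ∀ φ ω, 0 ≤ W φ ω := by
    intro φ ω
    simp only [hW]
    split_ifs
    · have := hc0 (univ.image φ).card (by
        refine card_image_le.trans ?_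
        rw [card_univ, Fintype.card_fin])
      positivity
    · exact le_rfl
  have hrow : ∀ φ, ∑ ω, W φ ω = 1 := by
    intro φ
    have hle : (univ.image φ).card ≤ m := by
      refine card_image_le.trans ?_
      rw [card_univ, Fintype.card_fin]
    simp only [hW]
    rw [← sum_filter, sum_const, nsmul_eq_mul, hcount _ hle]
    exact mul_one_div_cancel (hc0 _ hle).ne'
  obtain ⟨T₀, hT₀⟩ : ∃ T₀ : ℝ, T₀ = ∑ ψ : Fin m → Fin m, 1 / c (univ.image ψ).card := ⟨_, rfl⟩
  have hcol : ∀ ω, ∑ φ, W φ ω = T₀ := by
    intro ω
    obtain ⟨e⟩ : Nonempty ({x // x ∈ ω.1} ≃ Fin m) := by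
      refine ⟨Fintype.equivFinOfCardEq ?_⟩
      rw [Fintype.card_coe]
      exact ω.2
    simp only [hW]
    rw [← sum_filter, hT₀]
    symm
    apply sum_bij (fun (ψ : Fin m → Fin m) _ => fun i => (e.symm (ψ i)).1)
    · intro ψ _
      rw [mem_filter]
      refine ⟨mem_univ _, ?_⟩
      intro x hx
      rw [mem_image] at hx
      obtain ⟨i, -, rfl⟩ := hx
      exact (e.symm (ψ i)).2
    · intro ψ _ ψ' _ h
      funext i
      have h1 := congrFun h i
      exact e.symm.injective (Subtype.ext h1)
    · intro φ hφ
      rw [mem_filter] at hφ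
      refine ⟨fun i => e ⟨φ i, hφ.2 (mem_image_of_mem _ (mem_univ i))⟩, mem_univ _, ?_⟩
      funext i
      simp
    · intro ψ _
      have h1 : (univ.image fun i => (e.symm (ψ i)).1) =
          (univ.image ψ).image fun j => (e.symm j).1 := by
        rw [image_image]
        rfl
      have h2 : Function.Injective fun j => (e.symm j).1 :=
        fun j j' h => e.symm.injective (Subtype.ext h)
      rw [h1, card_image_of_injective _ h2]
  have htot : (Fintype.card (Sub E m) : ℝ) * T₀ = Fintype.card (Fin m → E) := by
    have h1 : ∑ ω, ∑ φ, W φ ω = ∑ φ, ∑ ω, W φ ω := sum_comm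
    rw [sum_congr rfl fun ω _ => hcol ω, sum_congr rfl fun φ _ => hrow φ, sum_const, sum_const,
      card_univ, card_univ, nsmul_eq_mul, nsmul_eq_mul, mul_one] at h1
    exact h1
  have hmain : ((univ.filter fun φ : Fin m → E => p (Set.range φ)).card : ℝ) ≤
      ((univ.filter fun ω : Sub E m => p (ω.1 : Set E)).card : ℝ) * T₀ := by
    calc ((univ.filter fun φ : Fin m → E => p (Set.range φ)).card : ℝ)
        = ∑ φ ∈ univ.filter (fun φ : Fin m → E => p (Set.range φ)), ∑ ω, W φ ω := by
          rw [sum_congr rfl fun φ _ => hrow φ, sum_const, nsmul_eq_mul, mul_one]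
      _ ≤ ∑ φ ∈ univ.filter (fun φ : Fin m → E => p (Set.range φ)),
            ∑ ω ∈ univ.filter (fun ω : Sub E m => p (ω.1 : Set E)), W φ ω := by
          apply sum_le_sum
          intro φ hφ
          rw [mem_filter] at hφ
          apply le_of_eq
          symm
          apply sum_subset (filter_subset _ _)
          intro ω _ hω
          simp only [hW]
          rw [if_neg]
          intro hsub
          apply hω
          rw [mem_filter]
          refine ⟨mem_univ _, hp _ _ ?_ hφ.2⟩
          rintro _ ⟨i, rfl⟩
          exact mem_coe.2 (hsub (mem_image_of_mem _ (mem_univ i)))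
      _ = ∑ ω ∈ univ.filter (fun ω : Sub E m => p (ω.1 : Set E)),
            ∑ φ ∈ univ.filter (fun φ : Fin m → E => p (Set.range φ)), W φ ω := sum_comm
      _ ≤ ∑ ω ∈ univ.filter (fun ω : Sub E m => p (ω.1 : Set E)), ∑ φ, W φ ω := by
          apply sum_le_sum
          intro ω _
          exact sum_le_sum_of_subset_of_nonneg (filter_subset _ _) fun φ _ _ => hW0 φ ω
      _ = _ := by
          rw [sum_congr rfl fun ω _ => hcol ω, sum_const, nsmul_eq_mul]
  have h1 : ((univ.filter fun φ : Fin m → E => p (Set.range φ)).card : ℝ) *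
      Fintype.card (Sub E m) ≤ ((univ.filter fun ω : Sub E m => p (ω.1 : Set E)).card : ℝ) *
      Fintype.card (Fin m → E) := by
    rw [← htot]
    have h2 : (0 : ℝ) ≤ Fintype.card (Sub E m) := Nat.cast_nonneg _
    calc _ ≤ (((univ.filter fun ω : Sub E m => p (ω.1 : Set E)).card : ℝ) * T₀) *
        Fintype.card (Sub E m) := mul_le_mul_of_nonneg_right hmain h2
      _ = _ := by ring
  exact_mod_cast h1

end

end Pool.Agent.T9h16.Rand
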