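import Pool.Agent.T9h16.Rand2.Main3
import Pool.Agent.T9h16.Rand2.Final3
import Pool.Agent.T9h16.Rand2.Subset

/-!
The final theorems for uniformly random sets of `m` clauses.
-/

set_option autoImplicit false
set_option linter.unusedSectionVars false

namespace Pool.Agent.T9h16.Rand

open Finset
open scoped Classical
open Pool.Agent.T9h16 (Leaf Avail IsSLP)
open Pool.Agent.T9h16

/-- The lower bound for de Morgan circuits and the negated facts they use, for general random sets
of clauses. -/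
theorem facts3 {K : ℕ} (hK : 100000000 ≤ K) {k n m : ℕ} (hk : 2 ≤ k) {s q r ℓ Y : ℕ}
    {Ω : Type} [Fintype Ω] (z : Ω → Set (Clause n k))
    (hz : Few z ((m : ℝ) / Fintype.card (Clause n k)))
    (hℓ : ℓ = Nat.log 2 (n + s + q * (Nat.card (Clause n k) + 1) ^ r) + 1)
    (hY : Y = k ^ 2 * ℓ ^ 2 * (Nat.log 2 n + 1) * (Nat.log 2 ℓ + 1) ^ 2)
    (hm : m * ((K * k) ^ k * (Y ^ (k - 2) * (n + Y ^ 2))) ≤ n ^ k)
    (U : Type) [Fintype U] (C : U → Neg.Circuit (Clause n k)) (hU : Fintype.card U ≤ q)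
    (hs : ∀ u, (C u).size ≤ s) (hC : ∀ u F, Satisfiable F → ¬ (C u).Accepts F) :
    (univ.filter fun φ : Ω => ∃ u, ∃ Q : Set (Clause n k), Q.ncard ≤ r ∧
      (C u).AcceptsUsing (z φ) Q).card * n ≤ Fintype.card Ω := by
  choose D hD hacc using fun (p : U × {Q : Finset (Clause n k) // Q.card ≤ r}) =>
    exists_mono_using (C p.1) (p.2.1 : Set (Clause n k))
  have hcard : Fintype.card (U × {Q : Finset (Clause n k) // Q.card ≤ r}) ≤
      q * (Nat.card (Clause n k) + 1) ^ r := by
    rw [Fintype.card_prod, Nat.card_eq_fintype_card]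
    exact Nat.mul_le_mul hU (Neg.card_small (Clause n k) r)
  have h := lower3 hK hk z hz hℓ hY hm
    (U × {Q : Finset (Clause n k) // Q.card ≤ r}) D hcard
    (fun p => (hD p).trans (hs p.1)) (fun p => by
      have h0 : (univ.filter fun x : Fin n → Bool => Accepts (D p) {c | Sat x c}) = ∅ := by
        rw [filter_eq_empty_iff]
        intro x _ hx
        rw [hacc] at hx
        refine hC p.1 ({c | Sat x c} \ (p.2.1 : Set (Clause n k))) ⟨x, fun c hc => hc.1⟩ ?_
        refine Neg.Circuit.mono ?_ (C p.1) hx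
        intro i b
        cases b with
        | true => exact fun h => h
        | false =>
          simp only [Bool.false_eq_true, if_false]
          exact fun h => ⟨h.1, Set.mem_univ _⟩
      rw [h0, card_empty, mul_zero]
      exact Nat.zero_le _)
  rw [mul_comm]
  refine le_trans (Nat.mul_le_mul_left _ (card_le_card ?_)) h
  intro φ hφ
  rw [mem_filter] at hφ ⊢
  obtain ⟨-, u, Q, hQ, hφ⟩ := hφ
  have hfin : (Q \ z φ).Finite := Set.toFinite _
  refine ⟨mem_univ _, (u, ⟨hfin.toFinset, ?_⟩), ?_⟩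
  · rw [← Set.ncard_eq_toFinset_card _ hfin]
    exact (Set.ncard_le_ncard Set.sdiff_subset (Set.toFinite _)).trans hQ
  · rw [hacc]
    simp only [Set.Finite.coe_toFinset]
    have h1 : z φ \ (Q \ z φ) = z φ := by
      ext c
      simp only [Set.mem_sdiff]
      tauto
    rw [h1, acceptsUsing_sdiff]
    exact hφ

section
variable {E : Type} [Fintype E]

/-- Sets with `m` elements and the subtype. -/
theorem ncard_slice (m : ℕ) (P : Set E → Prop) :
    {F : Set E | F.ncard = m ∧ P F}.ncard =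
      (univ.filter fun ω : Sub E m => P (ω.1 : Set E)).card := by
  have h1 : {F : Set E | F.ncard = m ∧ P F} =
      (fun ω : Sub E m => (ω.1 : Set E)) '' {ω | P (ω.1 : Set E)} := by
    ext F
    simp only [Set.mem_ofPred_eq, Set.mem_image]
    constructor
    · rintro ⟨h1, h2⟩
      have hfin : F.Finite := Set.toFinite _
      refine ⟨⟨hfin.toFinset, ?_⟩, ?_, ?_⟩
      · rw [← Set.ncard_eq_toFinset_card _ hfin]
        exact h1
      · rw [Set.Finite.coe_toFinset]
        exact h2
      · exact Set.Finite.coe_toFinset _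
    · rintro ⟨ω, h1, rfl⟩
      exact ⟨by rw [Set.ncard_coe_finset]; exact ω.2, h1⟩
  rw [h1, Set.ncard_image_of_injective _ (fun ω ω' h => Subtype.ext (Finset.coe_injective h)),
    ncard_filter inferInstance _ (Classical.decPred _)]

theorem ncard_slice_of_lt (m : ℕ) (hm : Fintype.card E < m) (P : Set E → Prop) :
    {F : Set E | F.ncard = m ∧ P F}.ncard = 0 := by
  have h1 : {F : Set E | F.ncard = m ∧ P F} = ∅ := by
    rw [Set.eq_empty_iff_forall_notMem]
    rintro F ⟨h1, -⟩
    have h2 : F.ncard ≤ (Set.univ : Set E).ncard := Set.ncard_le_ncard (Set.subset_univ F)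
    rw [Set.ncard_univ, Nat.card_eq_fintype_card] at h2
    omega
  rw [h1, Set.ncard_empty]

end

variable {k n m : ℕ}

/-- (1). -/
theorem final1 {K : ℕ} (hK : 100000000 ≤ K) (hk : 2 ≤ k) {s q r ℓ Y : ℕ}
    (hℓ : ℓ = Nat.log 2 (n + s + q * (Nat.card (Clause n k) + 1) ^ r) + 1)
    (hY : Y = k ^ 2 * ℓ ^ 2 * (Nat.log 2 n + 1) * (Nat.log 2 ℓ + 1) ^ 2)
    (hm : m * ((K * k) ^ k * (Y ^ (k - 2) * (n + Y ^ 2))) ≤ n ^ k)
    (C : Fin q → Neg.Circuit (Clause n k))
    (hC : ∀ j, (C j).size ≤ s ∧ ∀ F, Satisfiable F → ¬ (C j).Accepts F) :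
    {F : Set (Clause n k) | F.ncard = m ∧ ∃ j, ∃ Q : Set (Clause n k), Q.ncard ≤ r ∧
      (C j).AcceptsUsing F Q}.ncard * n ≤ (Nat.card (Clause n k)).choose m := by
  rcases Nat.eq_zero_or_pos (Fintype.card (Clause n k)) with hE | hE
  · have hE' : IsEmpty (Clause n k) := Fintype.card_eq_zero_iff.1 hE
    have h0 : {F : Set (Clause n k) | F.ncard = m ∧ ∃ j, ∃ Q : Set (Clause n k), Q.ncard ≤ r ∧
        (C j).AcceptsUsing F Q} = ∅ := by
      rw [Set.eq_empty_iff_forall_notMem]
      rintro F ⟨-, j, Q, -, h1⟩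
      refine (hC j).2 F ⟨fun _ => true, fun c _ => (hE'.false c).elim⟩ ?_
      refine Neg.Circuit.mono ?_ (C j) h1
      intro i b
      exact (hE'.false i).elim
    rw [h0, Set.ncard_empty, zero_mul]
    exact Nat.zero_le _
  rcases lt_or_ge (Fintype.card (Clause n k)) m with hmE | hmE
  · rw [ncard_slice_of_lt m hmE, zero_mul]
    exact Nat.zero_le _
  · have h := facts3 hK hk (fun ω : Sub (Clause n k) m => (ω.1 : Set (Clause n k)))
      (few_Sub m hmE hE) hℓ hY hm (Fin q) C (Fintype.card_fin q).le (fun j => (hC j).1)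
      (fun j => (hC j).2)
    rw [card_Sub] at h
    rw [Nat.card_eq_fintype_card, ncard_slice m fun F => ∃ j, ∃ Q : Set (Clause n k), Q.ncard ≤ r ∧
      (C j).AcceptsUsing F Q]
    refine le_trans (Nat.mul_le_mul_right _ (le_of_eq ?_)) h
    exact card_filter_eq _ _ _ _ _ _ fun _ => Iff.rfl

theorem acceptsUsing_mono (C : Neg.Circuit (Clause n k)) (F G : Set (Clause n k)) (h : F ⊆ G)
    (hF : C.AcceptsUsing F ∅) : C.AcceptsUsing G ∅ := by
  refine Neg.Circuit.mono ?_ C hF
  intro i b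
  cases b with
  | true => exact fun hi => h hi
  | false =>
    simp only [Bool.false_eq_true, if_false]
    exact fun hi => (Set.notMem_empty _ hi.2).elim

/-- (2). -/
theorem final2 {K : ℕ} (hK : 128 ≤ K) (hk : 2 ≤ k) {t : ℕ} (hn : 4 ≤ n) (hkt : k - 2 ≤ t)
    (ht : 2 * t ≤ n) (h : (K * k) ^ (2 * k) * n ^ (k - 1) ≤ m * t ^ (k - 2)) :
    ∃ C : Neg.Circuit (Clause n k), C.size ≤ 2 ^ t * (n + 1) ^ (K * k) ∧
      (∀ F : Set (Clause n k), Satisfiable F → ¬ C.Accepts F) ∧
      {F : Set (Clause n k) | F.ncard = m ∧ ¬ C.AcceptsUsing F ∅}.ncard * 2 ^ n ≤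
        (Nat.card (Clause n k)).choose m := by
  obtain ⟨C, h1, h2, h3⟩ := upper3 hK hk hn hkt ht h
  refine ⟨C, h1, h2, ?_⟩
  rcases lt_or_ge (Fintype.card (Clause n k)) m with hmE | hmE
  · rw [ncard_slice_of_lt m hmE, zero_mul]
    exact Nat.zero_le _
  have hkn : k ≤ n := by omega
  have hE : 0 < Fintype.card (Clause n k) :=
    card_pos_of (V := Fin n) isCl (by omega) (Fintype.card_fin n).symm hkn
  have hseq : 0 < Fintype.card (Fin m → Clause n k) := by
    rw [Fintype.card_fun]
    exact Nat.pow_pos hE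
  have h4 := seq_le_Sub m hmE (fun F => C.AcceptsUsing F ∅) (acceptsUsing_mono C)
  rw [Nat.card_eq_fintype_card, ncard_filter inferInstance _ (Classical.decPred _)] at h3
  rw [Nat.card_eq_fintype_card, ncard_slice m fun F => ¬ C.AcceptsUsing F ∅, ← card_Sub]
  suffices key : (univ.filter fun ω : Sub (Clause n k) m =>
      ¬ C.AcceptsUsing (ω.1 : Set _) ∅).card * 2 ^ n ≤ Fintype.card (Sub (Clause n k) m) by
    refine le_trans (Nat.mul_le_mul_right _ (le_of_eq ?_)) key
    exact card_filter_eq _ _ _ _ _ _ fun _ => Iff.rfl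
  -- complements
  have h5 : (univ.filter fun φ : Fin m → Clause n k => C.AcceptsUsing (Set.range φ) ∅).card +
      (univ.filter fun φ : Fin m → Clause n k => ¬ C.AcceptsUsing (Set.range φ) ∅).card =
      Fintype.card (Fin m → Clause n k) := by
    rw [card_filter_add_card_filter_not, card_univ]
  have h6 : (univ.filter fun ω : Sub (Clause n k) m => C.AcceptsUsing (ω.1 : Set _) ∅).card +
      (univ.filter fun ω : Sub (Clause n k) m => ¬ C.AcceptsUsing (ω.1 : Set _) ∅).card =
      Fintype.card (Sub (Clause n k) m) := by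
    rw [card_filter_add_card_filter_not, card_univ]
  have h3' : (univ.filter fun φ : Fin m → Clause n k =>
      ¬ C.AcceptsUsing (Set.range φ) ∅).card * 2 ^ n ≤ Fintype.card (Fin m → Clause n k) := by
    refine le_trans (Nat.mul_le_mul_right _ (le_of_eq ?_)) h3
    exact card_filter_eq _ _ _ _ _ _ fun _ => Iff.rfl
  set a := (univ.filter fun φ : Fin m → Clause n k => C.AcceptsUsing (Set.range φ) ∅).card
  set b := (univ.filter fun φ : Fin m → Clause n k => ¬ C.AcceptsUsing (Set.range φ) ∅).card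
  set c := (univ.filter fun ω : Sub (Clause n k) m => C.AcceptsUsing (ω.1 : Set _) ∅).card
  set d := (univ.filter fun ω : Sub (Clause n k) m => ¬ C.AcceptsUsing (ω.1 : Set _) ∅).card
  set X := Fintype.card (Fin m → Clause n k)
  set Z := Fintype.card (Sub (Clause n k) m)
  have h7 : d * X ≤ b * Z := by
    have h8 : a * Z + d * X ≤ c * X + d * X := Nat.add_le_add_right h4 _
    have h9 : c * X + d * X = (a + b) * Z := by
      rw [h5, ← add_mul, h6]
      ring
    rw [h9, add_mul] at h8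
    omega
  have h10 : X * (d * 2 ^ n) ≤ X * Z := by
    calc X * (d * 2 ^ n) = (d * X) * 2 ^ n := by ring
      _ ≤ (b * Z) * 2 ^ n := Nat.mul_le_mul_right _ h7
      _ = (b * 2 ^ n) * Z := by ring
      _ ≤ X * Z := Nat.mul_le_mul_right _ h3'
  exact Nat.le_of_mul_le_mul_left h10 hseq

/-- (3). -/
theorem final3 (m : ℕ) (C : LN.Circuit (Clause n k)) :
    ∃ C' : LN.Circuit (Clause n k), C'.nots ≤ 1 ∧
      C'.size ≤ 2 * C.size + 10 * (Nat.card (Clause n k) + 1) ^ 3 ∧
      ∀ F : Set (Clause n k), Acc' C' F ↔ Acc' C F ∧ F.ncard = m := by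
  obtain ⟨C', h1, h2, h3⟩ := exists_one_not C m
  rw [Nat.card_eq_fintype_card (α := Clause n k)]
  exact ⟨C', h2, h1, h3⟩

end Pool.Agent.T9h16.Rand
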