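import Pool.Agent.T9h16.Rand2.Cover2
import Pool.Agent.T9h16.Rand2.Count

/-!
The counting lemma for families of sets of constraints, sharper version.
-/

set_option autoImplicit false
set_option linter.unusedSectionVars false

namespace Pool.Agent.T9h16.Rand

open Finset
open scoped Classical

section
variable {V E : Type} [Fintype V] [Fintype E] {vars : E → Finset V}

/-- **The counting lemma.** -/
theorem kernel2 [Nonempty V] {k : ℕ} (hk2 : 2 ≤ k) (sgn : E → V → Bool)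
    (sat : (V → Bool) → E → Prop) (hk : ∀ e, (vars e).card = k)
    (hsat : ∀ e v x, v ∈ vars e → x v = sgn e v → sat x e)
    (hwt : ∀ wt : V → ℝ, (∀ v, 0 ≤ wt v) → ∑ e : E, ∏ v ∈ vars e, wt v ≤ (2 * ∑ v, wt v) ^ k)
    (w R J : ℕ) (hw1 : 1 ≤ w) (hR : 1 ≤ R) (hJ : 1 ≤ J) (hwJ : w < 2 ^ J) (Λ D : ℕ)
    (hΛ : Λ = k * w * (96 * (R * J ^ 2)))
    (hD : D = 36 * 4 ^ k * (Λ ^ (k - 2) * (Fintype.card V + Λ ^ 2)))
    (𝒜 : Finset (Finset E)) (I : Finset E) (j : ℕ) (hI : ∀ S ∈ 𝒜, I ⊆ S)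
    (hj : ∀ S ∈ 𝒜, S.card = I.card + j) (hw : ∀ S ∈ 𝒜, S.card ≤ w) (hcard : D ^ j < 𝒜.card) :
    ∃ T : Finset E, (∃ S ∈ 𝒜, T ⊂ S) ∧
      (univ.filter fun x : V → Bool => ∀ S ∈ 𝒜, ∃ e ∈ S, e ∉ T ∧ ¬ sat x e).card * 2 ^ R ≤
        2 ^ Fintype.card V := by
  have hk' : ∀ e, (vars e).card ≤ k := fun e => (hk e).le
  set B := 96 * (R * J ^ 2) with hB
  have hB0 : 0 < B := by positivity
  have hV0 : 0 < Fintype.card V := Fintype.card_pos
  have hΛ0 : 0 < Λ := by
    rw [hΛ]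
    exact Nat.mul_pos (Nat.mul_pos (by omega) (by omega)) hB0
  have hD0 : 0 < D := by rw [hD]; positivity
  set F : Finset V × Finset E → ℕ := fun p =>
    (𝒜.filter fun S => p.2 ⊆ S ∧ p.1 ⊆ VS vars S).card * B ^ (p.1 \ VS vars p.2).card *
      D ^ (p.2 \ I).card with hF
  obtain ⟨⟨K, T⟩, hKT, hmax⟩ := exists_max_image
    ((univ : Finset (Finset V × Finset E)).filter fun p => I ⊆ p.2 ∧ VS vars p.2 ⊆ p.1) F
    ⟨(VS vars I, I), by simp⟩
  rw [mem_filter] at hKT
  obtain ⟨-, hIT, hTK⟩ := hKT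
  simp only at hIT hTK
  have hFI : F (VS vars I, I) = 𝒜.card := by
    have e1 : (𝒜.filter fun S => I ⊆ S ∧ VS vars I ⊆ VS vars S) = 𝒜 :=
      filter_true_of_mem fun S hS => ⟨hI S hS, VS_mono (hI S hS)⟩
    change (𝒜.filter fun S => I ⊆ S ∧ VS vars I ⊆ VS vars S).card *
      B ^ (VS vars I \ VS vars I).card * D ^ (I \ I).card = _
    rw [e1]
    simp
  have hFKT : D ^ j < F (K, T) := by
    refine lt_of_lt_of_le hcard ?_
    rw [← hFI]
    exact hmax _ (by simp)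
  set 𝒯 := 𝒜.filter fun S => T ⊆ S ∧ K ⊆ VS vars S with h𝒯
  have hFK : F (K, T) = 𝒯.card * B ^ (K \ VS vars T).card * D ^ (T \ I).card := rfl
  have hTS : ∀ S ∈ 𝒯, T ⊂ S := by
    intro S hS
    rw [h𝒯, mem_filter] at hS
    refine lt_of_le_of_ne hS.2.1 ?_
    rintro rfl
    have h1 : 𝒯 ⊆ {T} := by
      intro S' hS'
      rw [h𝒯, mem_filter] at hS'
      rw [mem_singleton]
      symm
      apply eq_of_subset_of_card_le hS'.2.1
      rw [hj T hS.1, hj S' hS'.1]
    have h2 : 𝒯.card ≤ 1 := by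
      have := card_le_card h1
      rwa [card_singleton] at this
    have h3 : K \ VS vars T = ∅ := sdiff_eq_empty_iff_subset.2 hS.2.2
    have h4 : (T \ I).card = j := by
      rw [card_sdiff_of_subset hIT, hj T hS.1]
      omega
    rw [hFK, h3, h4, card_empty, pow_zero, mul_one] at hFKT
    have := Nat.mul_le_mul_right (D ^ j) h2
    omega
  have h𝒯ne : 𝒯.Nonempty := by
    rw [← card_pos]
    by_contra h0
    have h1 : 𝒯.card = 0 := by omega
    rw [hFK, h1, zero_mul, zero_mul] at hFKT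
    omega
  -- the two consequences of maximality
  have hZ : ∀ Z : Finset V, Disjoint Z K →
      (𝒯.filter fun S => Z ⊆ VS vars S).card * B ^ Z.card ≤ 𝒯.card := by
    intro Z hZK
    have h1 := hmax (K ∪ Z, T) (by
      rw [mem_filter]
      exact ⟨mem_univ _, hIT, hTK.trans subset_union_left⟩)
    rw [hFK] at h1
    have e1 : (𝒜.filter fun S => T ⊆ S ∧ K ∪ Z ⊆ VS vars S) = 𝒯.filter fun S => Z ⊆ VS vars S := by
      ext S
      rw [mem_filter, mem_filter, h𝒯, mem_filter, union_subset_iff]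
      tauto
    have e2 : ((K ∪ Z) \ VS vars T).card = (K \ VS vars T).card + Z.card := by
      rw [← card_union_of_disjoint]
      · congr 1
        ext v
        simp only [mem_sdiff, mem_union]
        constructor
        · rintro ⟨h3 | h3, h4⟩
          · exact Or.inl ⟨h3, h4⟩
          · exact Or.inr h3
        · rintro (⟨h3, h4⟩ | h3)
          · exact ⟨Or.inl h3, h4⟩
          · exact ⟨Or.inr h3, fun h4 => (disjoint_left.1 hZK h3) (hTK h4)⟩
      · exact (hZK.mono_right sdiff_subset).symm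
    have h2 : F (K ∪ Z, T) = (𝒯.filter fun S => Z ⊆ VS vars S).card *
        (B ^ (K \ VS vars T).card * B ^ Z.card) * D ^ (T \ I).card := by
      change (𝒜.filter fun S => T ⊆ S ∧ K ∪ Z ⊆ VS vars S).card *
        B ^ ((K ∪ Z) \ VS vars T).card * D ^ (T \ I).card = _
      rw [e1, e2, pow_add]
    rw [h2] at h1
    have h3 : 0 < B ^ (K \ VS vars T).card * D ^ (T \ I).card := by positivity
    have h4 : (𝒯.filter fun S => Z ⊆ VS vars S).card * B ^ Z.card *
        (B ^ (K \ VS vars T).card * D ^ (T \ I).card) ≤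
        𝒯.card * (B ^ (K \ VS vars T).card * D ^ (T \ I).card) := by
      calc _ = (𝒯.filter fun S => Z ⊆ VS vars S).card *
        (B ^ (K \ VS vars T).card * B ^ Z.card) * D ^ (T \ I).card := by ring
        _ ≤ _ := h1
        _ = _ := by ring
    exact Nat.le_of_mul_le_mul_right h4 h3
  have hQ : ∀ Q : Finset E, Disjoint Q T →
      (𝒯.filter fun S => Q ⊆ S).card * D ^ Q.card ≤ 𝒯.card * B ^ (VS vars Q ∩ K).card := by
    intro Q hQT
    have h1 := hmax (K ∪ VS vars Q, T ∪ Q) (by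
      rw [mem_filter]
      refine ⟨mem_univ _, hIT.trans subset_union_left, ?_⟩
      simp only
      rw [VS_union]
      exact union_subset_union hTK subset_rfl)
    rw [hFK] at h1
    obtain ⟨a, ha⟩ : ∃ a, a = ((K ∪ VS vars Q) \ VS vars (T ∪ Q)).card := ⟨_, rfl⟩
    have e1 : (𝒜.filter fun S => T ∪ Q ⊆ S ∧ K ∪ VS vars Q ⊆ VS vars S) =
        𝒯.filter fun S => Q ⊆ S := by
      ext S
      rw [mem_filter, mem_filter, h𝒯, mem_filter, union_subset_iff, union_subset_iff]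
      constructor
      · rintro ⟨h3, ⟨h4, h5⟩, h6, h7⟩
        exact ⟨⟨h3, h4, h6⟩, h5⟩
      · rintro ⟨⟨h3, h4, h6⟩, h5⟩
        exact ⟨h3, ⟨h4, h5⟩, h6, VS_mono h5⟩
    have e2 : ((T ∪ Q) \ I).card = (T \ I).card + Q.card := by
      rw [← card_union_of_disjoint]
      · congr 1
        ext v
        simp only [mem_sdiff, mem_union]
        constructor
        · rintro ⟨h3 | h3, h4⟩
          · exact Or.inl ⟨h3, h4⟩
          · exact Or.inr h3
        · rintro (⟨h3, h4⟩ | h3)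
          · exact ⟨Or.inl h3, h4⟩
          · exact ⟨Or.inr h3, fun h4 => (disjoint_left.1 hQT h3) (hIT h4)⟩
      · exact (hQT.mono_right sdiff_subset).symm
    have h2 : F (K ∪ VS vars Q, T ∪ Q) = (𝒯.filter fun S => Q ⊆ S).card * B ^ a *
        (D ^ (T \ I).card * D ^ Q.card) := by
      change (𝒜.filter fun S => T ∪ Q ⊆ S ∧ K ∪ VS vars Q ⊆ VS vars S).card *
        B ^ ((K ∪ VS vars Q) \ VS vars (T ∪ Q)).card * D ^ ((T ∪ Q) \ I).card = _
      rw [e1, e2, pow_add, ← ha]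
    have h5 : (K \ VS vars T).card ≤ a + (VS vars Q ∩ K).card := by
      have h6 : K \ VS vars T ⊆ ((K ∪ VS vars Q) \ VS vars (T ∪ Q)) ∪ (VS vars Q ∩ K) := by
        intro v hv
        rw [mem_sdiff] at hv
        rw [mem_union, mem_sdiff, VS_union, mem_union, mem_union, mem_inter]
        by_cases h7 : v ∈ VS vars Q
        · exact Or.inr ⟨h7, hv.1⟩
        · exact Or.inl ⟨Or.inl hv.1, fun h8 => h8.elim hv.2 h7⟩
      refine (card_le_card h6).trans ((card_union_le _ _).trans ?_)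
      rw [← ha]
    rw [h2] at h1
    have h3 : 0 < B ^ a * D ^ (T \ I).card := by positivity
    have h4 : (𝒯.filter fun S => Q ⊆ S).card * D ^ Q.card * (B ^ a * D ^ (T \ I).card) ≤
        (𝒯.card * B ^ (VS vars Q ∩ K).card) * (B ^ a * D ^ (T \ I).card) := by
      calc _ = (𝒯.filter fun S => Q ⊆ S).card * B ^ a * (D ^ (T \ I).card * D ^ Q.card) := by ring
        _ ≤ 𝒯.card * B ^ (K \ VS vars T).card * D ^ (T \ I).card := h1
        _ ≤ 𝒯.card * B ^ (a + (VS vars Q ∩ K).card) * D ^ (T \ I).card := by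
            apply Nat.mul_le_mul_right
            apply Nat.mul_le_mul_left
            exact Nat.pow_le_pow_right hB0 h5
        _ = _ := by
            rw [pow_add]
            ring
    exact Nat.le_of_mul_le_mul_right h4 h3
  -- the violators
  obtain ⟨S₀, hS₀⟩ := id h𝒯ne
  have hKcard : K.card ≤ k * w := by
    rw [h𝒯, mem_filter] at hS₀
    exact (card_le_card hS₀.2.2).trans ((card_VS_le hk' S₀).trans
      (Nat.mul_le_mul_left _ (hw S₀ hS₀.1)))
  obtain ⟨good, hgood⟩ : ∃ good : Finset E → Prop, ∀ S, good S ↔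
      ∃ rep : E → V, (∀ e ∈ S \ T, rep e ∈ vars e ∧ rep e ∉ K) ∧
        Set.InjOn rep ((S \ T : Finset E) : Set E) := ⟨_, fun _ => Iff.rfl⟩
  set 𝒢 := 𝒯.filter good with h𝒢
  set 𝒬 := (univ : Finset (Finset E)).filter fun Q =>
    Disjoint Q T ∧ Q.card ≤ w ∧ MinViol vars K Q with h𝒬
  have hbad : (𝒯.filter fun S => ¬ good S) ⊆ 𝒬.biUnion fun Q => 𝒯.filter fun S => Q ⊆ S := by
    intro S hS
    rw [mem_filter] at hS
    have hS1 := hS.1
    rw [h𝒯, mem_filter] at hS1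
    rcases exists_rep_or_viol (vars := vars) (S \ T) K with h1 | ⟨Q₁, hQ₁S, hQ₁K⟩
    · exact (hS.2 ((hgood S).2 h1)).elim
    · obtain ⟨Q, hQQ₁, hQK⟩ := exists_minViol hQ₁K
      have hQS : Q ⊆ S \ T := hQQ₁.trans hQ₁S
      rw [mem_biUnion]
      refine ⟨Q, ?_, ?_⟩
      · rw [h𝒬, mem_filter]
        refine ⟨mem_univ _, ?_, ?_, hQK⟩
        · rw [disjoint_left]
          intro e he
          exact (mem_sdiff.1 (hQS he)).2
        · exact (card_le_card (hQS.trans sdiff_subset)).trans (hw S hS1.1)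
      · rw [mem_filter]
        exact ⟨hS.1, hQS.trans sdiff_subset⟩
  have hVR : (1 : ℝ) ≤ Fintype.card V := by exact_mod_cast hV0
  have hDR : (0 : ℝ) < D := by exact_mod_cast hD0
  have hBR : (1 : ℝ) ≤ B := by exact_mod_cast hB0
  have hΛR : (0 : ℝ) < Λ := by exact_mod_cast hΛ0
  have hwΛ : w ≤ Λ := by
    rw [hΛ]
    calc w = 1 * w * 1 := by ring
      _ ≤ k * w * B := Nat.mul_le_mul (Nat.mul_le_mul_right _ (by omega)) hB0
  have hKΛ : (B : ℝ) * K.card ≤ Λ := by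
    have h1 : B * K.card ≤ Λ := by
      rw [hΛ, mul_comm]
      exact Nat.mul_le_mul_right _ hKcard
    exact_mod_cast h1
  have hbadcard : ((𝒯.filter fun S => ¬ good S).card : ℝ) ≤ 𝒯.card * (1 / 3) := by
    have h1 : ((𝒯.filter fun S => ¬ good S).card : ℝ) ≤
        ∑ Q ∈ 𝒬, ((𝒯.filter fun S => Q ⊆ S).card : ℝ) := by
      exact_mod_cast (card_le_card hbad).trans card_biUnion_le
    have h2 : ∀ Q ∈ 𝒬, ((𝒯.filter fun S => Q ⊆ S).card : ℝ) ≤
        𝒯.card * ((B : ℝ) ^ (VS vars Q ∩ K).card / (D : ℝ) ^ Q.card) := by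
      intro Q hQ𝒬
      rw [h𝒬, mem_filter] at hQ𝒬
      have h3 := hQ Q hQ𝒬.2.1
      have h4 : ((𝒯.filter fun S => Q ⊆ S).card : ℝ) * (D : ℝ) ^ Q.card ≤
          𝒯.card * (B : ℝ) ^ (VS vars Q ∩ K).card := by exact_mod_cast h3
      rw [← mul_div_assoc, le_div_iff₀ (by positivity)]
      exact h4
    refine h1.trans ((sum_le_sum h2).trans ?_)
    rw [← mul_sum]
    apply mul_le_mul_of_nonneg_left _ (Nat.cast_nonneg _)
    have hmaps : ∀ Q ∈ 𝒬, Q.card - 1 ∈ range w := by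
      intro Q hQ𝒬
      rw [h𝒬, mem_filter] at hQ𝒬
      have := card_pos.2 hQ𝒬.2.2.2.nonempty
      rw [mem_range]
      omega
    rw [← sum_fiberwise_of_maps_to hmaps]
    refine le_trans (sum_le_sum (g := fun q => (1 / 4 : ℝ) ^ (q + 1)) ?_) (geo_quarter w)
    intro q hq
    rw [mem_range] at hq
    have h5 : ∑ Q ∈ 𝒬.filter (fun Q => Q.card - 1 = q),
        (B : ℝ) ^ (VS vars Q ∩ K).card / (D : ℝ) ^ Q.card ≤
        (∑ Q ∈ univ.filter (fun Q : Finset E => MinViol vars K Q ∧ Q.card = q + 1),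
          (B : ℝ) ^ (VS vars Q ∩ K).card) / (D : ℝ) ^ (q + 1) := by
      rw [sum_div]
      have h6 : ∀ Q ∈ 𝒬.filter (fun Q => Q.card - 1 = q),
          (B : ℝ) ^ (VS vars Q ∩ K).card / (D : ℝ) ^ Q.card =
          (B : ℝ) ^ (VS vars Q ∩ K).card / (D : ℝ) ^ (q + 1) := by
        intro Q hQ𝒬
        rw [mem_filter, h𝒬, mem_filter] at hQ𝒬
        have := card_pos.2 hQ𝒬.1.2.2.2.nonempty
        have h7 : Q.card = q + 1 := by omega
        rw [h7]
      rw [sum_congr rfl h6]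
      apply sum_le_sum_of_subset_of_nonneg
      · intro Q hQ𝒬
        rw [mem_filter, h𝒬, mem_filter] at hQ𝒬
        have := card_pos.2 hQ𝒬.1.2.2.2.nonempty
        rw [mem_filter]
        exact ⟨mem_univ _, hQ𝒬.1.2.2.2, by omega⟩
      · intro Q _ _
        positivity
    refine h5.trans ?_
    have h6 := card_minViol hk2 hk hwt K (B : ℝ) (Λ : ℝ) hBR (q + 1) (by omega) (by
      have h7 : q + 1 ≤ Λ := by omega
      exact_mod_cast h7) hKΛ
    rw [div_le_iff₀ (by positivity)]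
    refine h6.trans ?_
    rw [Nat.add_sub_cancel]
    have h7 : (D : ℝ) = 36 * 4 ^ k * ((Λ : ℝ) ^ (k - 2) * (Fintype.card V + (Λ : ℝ) ^ 2)) := by
      rw [hD]
      push_cast
      ring
    rw [h7, ← mul_pow]
    calc (Fintype.card V : ℝ) ^ q * (Λ : ℝ) ^ ((k - 2) * (q + 1) + 2) * (9 * 4 ^ k) ^ (q + 1)
        = ((Fintype.card V : ℝ) ^ q * (Λ : ℝ) ^ 2) *
          ((9 * 4 ^ k) ^ (q + 1) * (((Λ : ℝ) ^ (k - 2)) ^ (q + 1))) := by
          rw [pow_add, pow_mul]
          ring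
      _ ≤ ((Fintype.card V + (Λ : ℝ) ^ 2) ^ q * (Fintype.card V + (Λ : ℝ) ^ 2)) *
          ((9 * 4 ^ k) ^ (q + 1) * (((Λ : ℝ) ^ (k - 2)) ^ (q + 1))) := by
          apply mul_le_mul_of_nonneg_right _ (by positivity)
          apply mul_le_mul _ _ (by positivity) (by positivity)
          · apply pow_le_pow_left₀ (by positivity)
            have : (0 : ℝ) ≤ (Λ : ℝ) ^ 2 := by positivity
            linarith
          · linarith
      _ = (1 / 4 * (36 * 4 ^ k * ((Λ : ℝ) ^ (k - 2) * (Fintype.card V + (Λ : ℝ) ^ 2)))) ^ (q + 1) := by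
          have e1 : (1 / 4 * (36 * 4 ^ k * ((Λ : ℝ) ^ (k - 2) *
              (Fintype.card V + (Λ : ℝ) ^ 2)))) = (9 * 4 ^ k) * (Λ : ℝ) ^ (k - 2) *
              (Fintype.card V + (Λ : ℝ) ^ 2) := by ring
          rw [e1, mul_pow, mul_pow]
          ring
  have h𝒢card : (𝒯.card : ℝ) ≤ 2 * 𝒢.card := by
    have h1 : 𝒢.card + (𝒯.filter fun S => ¬ good S).card = 𝒯.card := by
      rw [h𝒢]
      exact card_filter_add_card_filter_not _
    have h2 : (𝒢.card : ℝ) + ((𝒯.filter fun S => ¬ good S).card : ℝ) = 𝒯.card := by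
      exact_mod_cast h1
    have h3 : (0 : ℝ) ≤ 𝒯.card := Nat.cast_nonneg _
    linarith
  have h𝒢ne : 𝒢.Nonempty := by
    rw [← card_pos]
    by_contra h0
    have h1 : 𝒢.card = 0 := by omega
    have h2 : (0 : ℝ) < 𝒯.card := by exact_mod_cast card_pos.2 h𝒯ne
    rw [h1, Nat.cast_zero, mul_zero] at h𝒢card
    linarith
  have hrep : ∀ S, ∃ rep : E → V, S ∈ 𝒢 → (∀ e ∈ S \ T, rep e ∈ vars e ∧ rep e ∉ K) ∧
      Set.InjOn rep ((S \ T : Finset E) : Set E) := by
    intro S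
    by_cases hS : S ∈ 𝒢
    · rw [h𝒢, mem_filter] at hS
      obtain ⟨rep, hrep⟩ := (hgood S).1 hS.2
      exact ⟨rep, fun _ => hrep⟩
    · obtain ⟨d⟩ := ‹Nonempty V›
      exact ⟨fun _ => d, fun h => (hS h).elim⟩
  choose rep hrep using hrep
  set Rf : Finset E → Finset V := fun S => (S \ T).image (rep S) with hRf
  set σ : Finset E → V → Bool := fun S v =>
    if h : ∃ e ∈ S \ T, rep S e = v then sgn h.choose v else true with hσ
  have hσe : ∀ S ∈ 𝒢, ∀ e ∈ S \ T, σ S (rep S e) = sgn e (rep S e) := by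
    intro S hS e he
    have h1 : ∃ e' ∈ S \ T, rep S e' = rep S e := ⟨e, he, rfl⟩
    simp only [hσ]
    rw [dif_pos h1]
    have h2 := h1.choose_spec
    rw [(hrep S hS).2 (mem_coe.2 h2.1) (mem_coe.2 he) h2.2]
  have hmem𝒢 : ∀ S ∈ 𝒢, S ∈ 𝒜 ∧ T ⊆ S ∧ K ⊆ VS vars S := by
    intro S hS
    rw [h𝒢, mem_filter, h𝒯, mem_filter] at hS
    exact hS.1
  have hu : ∀ S ∈ 𝒢, (Rf S).card = I.card + j - T.card := by
    intro S hS
    simp only [hRf]
    rw [card_image_of_injOn (hrep S hS).2, card_sdiff_of_subset (hmem𝒢 S hS).2.1,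
      hj S (hmem𝒢 S hS).1]
  have huw : I.card + j - T.card ≤ w := by
    obtain ⟨S, hS⟩ := h𝒢ne
    have := hw S (hmem𝒢 S hS).1
    rw [hj S (hmem𝒢 S hS).1] at this
    omega
  have hcov := cover2 𝒢 h𝒢ne Rf σ (I.card + j - T.card) R J hR hJ (fun S hS => (hu S hS).le)
    (lt_of_le_of_lt huw hwJ) (B : ℝ) (by exact_mod_cast hB0)
    (by
      have h1 : 96 * (R * J ^ 2) ≤ B := le_of_eq hB.symm
      exact_mod_cast h1)
    (by
      intro S hS Z hZS
      have hdis : Disjoint Z K := by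
        rw [disjoint_left]
        intro v hv hvK
        have h1 := hZS hv
        simp only [hRf] at h1
        rw [mem_image] at h1
        obtain ⟨e, he, rfl⟩ := h1
        exact ((hrep S hS).1 e he).2 hvK
      have h1 := hZ Z hdis
      have h2 : (𝒢.filter fun S' => Z ⊆ Rf S').card ≤ (𝒯.filter fun S => Z ⊆ VS vars S).card := by
        apply card_le_card
        intro S' hS'
        rw [mem_filter] at hS' ⊢
        refine ⟨(mem_filter.1 (h𝒢 ▸ hS'.1)).1, ?_⟩
        intro v hv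
        have h3 := hS'.2 hv
        simp only [hRf] at h3
        rw [mem_image] at h3
        obtain ⟨e, he, rfl⟩ := h3
        exact mem_VS.2 ⟨e, (mem_sdiff.1 he).1, ((hrep S' hS'.1).1 e he).1⟩
      have h3 : ((𝒢.filter fun S' => Z ⊆ Rf S').card : ℝ) * (B : ℝ) ^ Z.card ≤ 𝒯.card := by
        exact_mod_cast (Nat.mul_le_mul_right _ h2).trans h1
      exact h3.trans h𝒢card)
  obtain ⟨S₁, hS₁⟩ := id h𝒢ne
  refine ⟨T, ⟨S₁, (hmem𝒢 S₁ hS₁).1, hTS S₁ ?_⟩, ?_⟩
  · rw [h𝒢, mem_filter] at hS₁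
    exact hS₁.1
  · refine le_trans (Nat.mul_le_mul_right _ (card_le_card ?_)) hcov
    intro x hx
    simp only [mem_filter, mem_univ, true_and] at hx ⊢
    intro S hS
    obtain ⟨e, heS, heT, hex⟩ := hx S (hmem𝒢 S hS).1
    have he : e ∈ S \ T := mem_sdiff.2 ⟨heS, heT⟩
    refine ⟨rep S e, ?_, ?_⟩
    · simp only [hRf]
      exact mem_image_of_mem _ he
    · rw [hσe S hS e he]
      intro h
      exact hex (hsat e (rep S e) x ((hrep S hS).1 e he).1 h)

end

end Pool.Agent.T9h16.Rand
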