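import Pool.Agent.T9h16.Rand2.Clause3
import Pool.Agent.T9h16.Rand2.Main2

/-!
The lower bounds for monotone circuits and general random sets of clauses.
-/

set_option autoImplicit false
set_option linter.unusedSectionVars false

namespace Pool.Agent.T9h16.Rand

open Finset
open scoped Classical
open Pool.Agent.T9h16 (Leaf Avail IsSLP)

/-- The structure theorem. -/
theorem structure_circuit3 {n k m w : ℕ} {Ω : Type} [Fintype Ω] (z : Ω → Set (Clause n k))
    (hz : Few z ((m : ℝ) / Fintype.card (Clause n k))) (hk : 2 ≤ k) (hw : 1 ≤ w)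
    (Y : ℕ)
    (hY : Y = k ^ 2 * w ^ 2 * (Nat.log 2 n + 1) * (Nat.log 2 w + 1) ^ 2)
    (hm : m * ((663552 * k) ^ k * (Y ^ (k - 2) * (n + Y ^ 2))) ≤ n ^ k)
    (D : MonoCircuit (Clause n k)) (hs : D.size ≤ 2 ^ w)
    (hsound : (univ.filter fun x : Fin n → Bool => Accepts D {c | Sat x c}).card *
      2 ^ (k * w + 1) ≤ 2 ^ n) :
    (univ.filter fun φ : Ω => Accepts D (z φ) ∧
      ∀ S : Finset (Clause n k), S.card ≤ w → (∀ c ∈ S, c ∈ z φ) →
        ∃ x, ∀ c ∈ S, Sat x c).card * 2 ^ w ≤ D.size * Fintype.card Ω := by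
  obtain ⟨g, o, hg, ho, hacc⟩ := exists_slp D
  rcases lt_or_ge n k with hnk | hkn
  · have hE := isEmpty_clause hnk
    have h0 : (univ.filter fun φ : Ω => Accepts D (z φ) ∧
      ∀ S : Finset (Clause n k), S.card ≤ w → (∀ c ∈ S, c ∈ z φ) →
        ∃ x, ∀ c ∈ S, Sat x c) = ∅ := by
      rw [filter_eq_empty_iff]
      rintro φ - ⟨h1, -⟩
      have h2 : (univ.filter fun x : Fin n → Bool => Accepts D {c | Sat x c}) = univ := by
        rw [filter_eq_self]
        intro x _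
        have h3 : {c : Clause n k | Sat x c} = z φ := by
          ext c
          exact (hE.false c).elim
        rw [h3]
        exact h1
      rw [h2, card_univ, Fintype.card_fun, Fintype.card_bool, Fintype.card_fin] at hsound
      have h3 : 1 < 2 ^ (k * w + 1) := Nat.one_lt_two_pow (by omega)
      have h4 : 0 < 2 ^ n := by positivity
      nlinarith
    rw [h0, card_empty, zero_mul]
    exact Nat.zero_le _
  · have h := structure_Cl3 (V := Fin n) (Ω := Ω) (E := Clause n k) (z := z) (m := m) isCl hk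
      (Fintype.card_fin n).symm hkn w hw Y hY hm g D.size hg hs o ho hz
      (by
        refine le_trans (Nat.mul_le_mul_right _ (le_of_eq ?_)) hsound
        congr 1
        ext x
        simp only [mem_filter, mem_univ, true_and]
        exact (hacc _).symm)
    refine le_trans (Nat.mul_le_mul_right _ (le_of_eq ?_)) h
    have e1 : ∀ φ : Ω, (Accepts D (z φ) ∧
      ∀ S : Finset (Clause n k), S.card ≤ w → (∀ c ∈ S, c ∈ z φ) →
        ∃ x, ∀ c ∈ S, Sat x c) ↔ (o (z φ) ∧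
      ∀ S : Finset (Clause n k), S.card ≤ w → (∀ c ∈ S, c ∈ z φ) →
        ∃ x, ∀ c ∈ S, csat Clause.lits x c) := by
      intro φ
      rw [hacc]
      exact Iff.rfl
    exact card_filter_eq _ _ _ _ _ _ e1

/-- Small unsatisfiable subformulas are rare. -/
theorem small_unsat_rare3 {n k m w : ℕ} {Ω : Type} [Fintype Ω] (z : Ω → Set (Clause n k))
    (hz : Few z ((m : ℝ) / Fintype.card (Clause n k))) (hk : 2 ≤ k) (hw : 1 ≤ w)
    (Y : ℕ)
    (hY : Y = k ^ 2 * w ^ 2 * (Nat.log 2 n + 1) * (Nat.log 2 w + 1) ^ 2)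
    (hm : m * ((663552 * k) ^ k * (Y ^ (k - 2) * (n + Y ^ 2))) ≤ n ^ k) :
    3 * (n * (univ.filter fun φ : Ω => ∃ S : Finset (Clause n k), S.card ≤ w ∧
      (∀ c ∈ S, c ∈ z φ) ∧ ¬ ∃ x, ∀ c ∈ S, Sat x c).card) ≤
      Fintype.card Ω := by
  rcases lt_or_ge n k with hnk | hkn
  · have hE := isEmpty_clause hnk
    have h0 : (univ.filter fun φ : Ω => ∃ S : Finset (Clause n k),
        S.card ≤ w ∧ (∀ c ∈ S, c ∈ z φ) ∧ ¬ ∃ x, ∀ c ∈ S, Sat x c) = ∅ := by
      rw [filter_eq_empty_iff]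
      rintro φ - ⟨S, -, -, h3⟩
      exact h3 ⟨fun _ => true, fun c _ => (hE.false c).elim⟩
    rw [h0, card_empty, mul_zero, mul_zero]
    exact Nat.zero_le _
  · have h := small_Cl3 (V := Fin n) (Ω := Ω) (E := Clause n k) (z := z) (m := m) isCl hk
      (Fintype.card_fin n).symm hkn w hw Y hY hm hz
    refine le_trans (Nat.mul_le_mul_left _ (Nat.mul_le_mul_left _ (le_of_eq ?_))) h
    have e1 : ∀ φ : Ω, (∃ S : Finset (Clause n k), S.card ≤ w ∧
      (∀ c ∈ S, c ∈ z φ) ∧ ¬ ∃ x, ∀ c ∈ S, Sat x c) ↔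
      (∃ S : Finset (Clause n k), S.card ≤ w ∧
      (∀ c ∈ S, c ∈ z φ) ∧ ¬ ∃ x, ∀ c ∈ S, csat Clause.lits x c) := by
      intro φ
      exact Iff.rfl
    exact card_filter_eq _ _ _ _ _ _ e1

/-- The lower bound for families of monotone circuits. -/
theorem lower3 {K : ℕ} (hK : 100000000 ≤ K) {k : ℕ} (hk : 2 ≤ k) {n m s q ℓ Y : ℕ}
    {Ω : Type} [Fintype Ω] (z : Ω → Set (Clause n k))
    (hz : Few z ((m : ℝ) / Fintype.card (Clause n k)))
    (hℓ : ℓ = Nat.log 2 (n + s + q) + 1)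
    (hY : Y = k ^ 2 * ℓ ^ 2 * (Nat.log 2 n + 1) * (Nat.log 2 ℓ + 1) ^ 2)
    (hm : m * ((K * k) ^ k * (Y ^ (k - 2) * (n + Y ^ 2))) ≤ n ^ k)
    (U : Type) [Fintype U] (D : U → MonoCircuit (Clause n k)) (hU : Fintype.card U ≤ q)
    (hs : ∀ u, (D u).size ≤ s)
    (hsound : ∀ u, (n + s + q) ^ (K * k) *
      (univ.filter fun x : Fin n → Bool => Accepts (D u) {c | Sat x c}).card ≤ 2 ^ n) :
    n * (univ.filter fun φ : Ω => ∃ u, Accepts (D u) (z φ)).card ≤ Fintype.card Ω := by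
  rcases Nat.eq_zero_or_pos n with hn0 | hn1
  · have h0 : ∀ a : ℕ, n * a = 0 := fun a => by rw [hn0, zero_mul]
    rw [h0]
    exact Nat.zero_le _
  rcases isEmpty_or_nonempty U with hUe | hUn
  · have h0 : (univ.filter fun φ : Ω =>
        ∃ u, Accepts (D u) (z φ)) = ∅ := by
      rw [filter_eq_empty_iff]
      rintro φ - ⟨u, -⟩
      exact hUe.false u
    rw [h0, card_empty, mul_zero]
    exact Nat.zero_le _
  have hq1 : 1 ≤ q := le_trans Fintype.card_pos hU
  have hℓlt : n + s + q < 2 ^ ℓ := hℓ ▸ Nat.lt_pow_succ_log_self (by norm_num) _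
  have hℓle : 2 ^ ℓ ≤ 2 * (n + s + q) := by
    rw [hℓ, pow_succ, mul_comm]
    exact Nat.mul_le_mul_left _ (Nat.pow_log_le_self 2 (by omega))
  have hℓ1 : 1 ≤ ℓ := by omega
  obtain ⟨w, hw⟩ : ∃ w, w = 3 * ℓ + 1 := ⟨_, rfl⟩
  have hw1 : 1 ≤ w := by omega
  have hwℓ : w ≤ 4 * ℓ := by omega
  have h2w : 2 * (n * (s * q)) ≤ 2 ^ w := by
    calc 2 * (n * (s * q)) ≤ 2 * (2 ^ ℓ * (2 ^ ℓ * 2 ^ ℓ)) := by
          apply Nat.mul_le_mul_left
          apply Nat.mul_le_mul (by omega)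
          exact Nat.mul_le_mul (by omega) (by omega)
      _ = 2 ^ w := by
          rw [hw]
          ring
  have hsw : s ≤ 2 ^ w := by
    calc s ≤ 2 ^ ℓ := by omega
      _ ≤ 2 ^ w := Nat.pow_le_pow_right (by norm_num) (by omega)
  obtain ⟨Y', hY'⟩ : ∃ Y', Y' = k ^ 2 * w ^ 2 * (Nat.log 2 n + 1) * (Nat.log 2 w + 1) ^ 2 :=
    ⟨_, rfl⟩
  have hmw : m * ((663552 * k) ^ k * (Y' ^ (k - 2) * (n + Y' ^ 2))) ≤ n ^ k :=
    (Nat.mul_le_mul_left _ (Y_le hk hℓ1 hwℓ hK hY' hY)).trans hm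
  have hsd : ∀ u, (univ.filter fun x : Fin n → Bool =>
      Accepts (D u) {c | Sat x c}).card * 2 ^ (k * w + 1) ≤ 2 ^ n := by
    intro u
    refine le_trans ?_ (hsound u)
    rw [mul_comm]
    apply Nat.mul_le_mul_right
    have h2 : 2 ≤ n + s + q := by omega
    calc 2 ^ (k * w + 1) = (2 ^ ℓ) ^ (3 * k) * 2 ^ (k + 1) := by
          rw [← pow_mul, ← pow_add, hw]
          congr 1
          ring
      _ ≤ (2 * (n + s + q)) ^ (3 * k) * 2 ^ (k + 1) :=
          Nat.mul_le_mul_right _ (Nat.pow_le_pow_left hℓle _)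
      _ ≤ ((n + s + q) * (n + s + q)) ^ (3 * k) * (n + s + q) ^ (k + 1) :=
          Nat.mul_le_mul (Nat.pow_le_pow_left (Nat.mul_le_mul_right _ h2) _)
            (Nat.pow_le_pow_left h2 _)
      _ = (n + s + q) ^ (7 * k + 1) := by
          rw [← pow_two, ← pow_mul, ← pow_add]
          congr 1
          ring
      _ ≤ (n + s + q) ^ (K * k) := by
          apply Nat.pow_le_pow_right (by omega)
          nlinarith
  set X := Fintype.card Ω with hX
  -- the two kinds of accepted formulas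
  set A := univ.filter fun φ : Ω => ∃ S : Finset (Clause n k), S.card ≤ w ∧
    (∀ c ∈ S, c ∈ z φ) ∧ ¬ ∃ x, ∀ c ∈ S, Sat x c with hA
  have hAX : 3 * (n * A.card) ≤ X := small_unsat_rare3 z hz hk hw1 Y' hY' hmw
  set B : U → Finset Ω := fun u => univ.filter fun φ : Ω =>
    Accepts (D u) (z φ) ∧
    ∀ S : Finset (Clause n k), S.card ≤ w → (∀ c ∈ S, c ∈ z φ) →
      ∃ x, ∀ c ∈ S, Sat x c with hB
  have hBX : ∀ u, (B u).card * 2 ^ w ≤ s * X := fun u =>
    (structure_circuit3 z hz hk hw1 Y' hY' hmw (D u) ((hs u).trans hsw) (hsd u)).trans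
      (Nat.mul_le_mul_right _ (hs u))
  have hsub : (univ.filter fun φ : Ω => ∃ u, Accepts (D u) (z φ)) ⊆
      A ∪ univ.biUnion B := by
    intro φ hφ
    rw [mem_filter] at hφ
    obtain ⟨-, u, hu⟩ := hφ
    rw [mem_union]
    by_cases hA' : φ ∈ A
    · exact Or.inl hA'
    · right
      rw [mem_biUnion]
      refine ⟨u, mem_univ _, ?_⟩
      rw [hB, mem_filter]
      refine ⟨mem_univ _, hu, ?_⟩
      intro S hS1 hS2
      by_contra hcon
      apply hA'
      rw [hA, mem_filter]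
      exact ⟨mem_univ _, S, hS1, hS2, hcon⟩
  have hsum : (univ.biUnion B).card * 2 ^ w ≤ q * (s * X) := by
    calc (univ.biUnion B).card * 2 ^ w ≤ (∑ u : U, (B u).card) * 2 ^ w :=
          Nat.mul_le_mul_right _ card_biUnion_le
      _ = ∑ u : U, (B u).card * 2 ^ w := sum_mul _ _ _
      _ ≤ ∑ _u : U, s * X := sum_le_sum fun u _ => hBX u
      _ = Fintype.card U * (s * X) := by rw [sum_const, card_univ, smul_eq_mul]
      _ ≤ q * (s * X) := Nat.mul_le_mul_right _ hU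
  have hBn : 2 * (n * (univ.biUnion B).card) ≤ X := by
    have h1 : 2 ^ w * (2 * (n * (univ.biUnion B).card)) ≤ 2 ^ w * X := by
      calc 2 ^ w * (2 * (n * (univ.biUnion B).card))
          = 2 * n * ((univ.biUnion B).card * 2 ^ w) := by ring
        _ ≤ 2 * n * (q * (s * X)) := Nat.mul_le_mul_left _ hsum
        _ = (2 * (n * (s * q))) * X := by ring
        _ ≤ 2 ^ w * X := Nat.mul_le_mul_right _ h2w
    exact Nat.le_of_mul_le_mul_left h1 (by positivity)
  calc n * (univ.filter fun φ : Ω => ∃ u, Accepts (D u) (z φ)).card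
      ≤ n * (A.card + (univ.biUnion B).card) :=
        Nat.mul_le_mul_left _ ((card_le_card hsub).trans (card_union_le _ _))
    _ = n * A.card + n * (univ.biUnion B).card := by ring
    _ ≤ X := by omega

end Pool.Agent.T9h16.Rand
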